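import Pool.Agent.Y267.RS.Defs

set_option autoImplicit false

/-!
# Project RS: exact statements of the parts
-/

namespace Pool.Agent.Y267.RS

open Set Filter Topology MeasureTheory

noncomputable section

/-! ## A. arithmetic -/

def A1Stm : Prop := Summable (fun j : ℕ => 1 / (Q j : ℝ)) ∧ Summable th ∧ 0 < al ∧ al < 1 / 1000

def A2Stm : Prop := ∀ j : ℕ, 1 / (Q j : ℝ) ^ 2 ≤ th j ∧ th j ≤ 1.001 / (Q j : ℝ) ^ 2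

def A3Stm : Prop := ∀ j : ℕ, ((((Q j : ℝ) * al : ℝ)) : T1) = ((th j : ℝ) : T1)

def A4Stm : Prop := ∀ (j : ℕ) (s : ℤ), |(s : ℝ)| * th j ≤ 1 / 2 → ¬ ((Q j : ℤ) ∣ s) →
  1 / (2 * (Q j : ℝ)) ≤ ‖(((s : ℝ) * al : ℝ) : T1)‖

def A5Stm : Prop := ∀ (j : ℕ) (l : ℤ), |(l : ℝ)| * th j ≤ 1 / 2 →
  ‖((((Q j : ℝ) * l) * al : ℝ) : T1)‖ = |(l : ℝ)| * th j

/-- in particular `0 < be < 1/1000` -/
def A6Stm : Prop := (0 < be ∧ be < 1 / 1000) ∧ ∀ j : ℕ,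
  0 < be - uu (j + 1) ∧ be - uu (j + 1) ≤ 3 * th (j + 1) ∧ th (j + 1) ≤ th j / 1000 ∧
  uu (j + 1) = uu j + 2 * th j ∧ 0 ≤ uu j

def A7Stm : Prop := ∀ j : ℕ,
  ((uu j : ℝ) : T1) = ((((2 * ∑ i ∈ Finset.range j, Q i : ℕ) : ℝ) * al : ℝ) : T1) ∧
  1000 * (2 * ∑ i ∈ Finset.range j, Q i) ≤ Q j

/-! ## B. Denjoy-Koksma -/

/-- total variation of `g` over one period at most `V` -/
def BVc (g : T1 → ℝ) (V : ℝ) : Prop :=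
  ∀ y : ℝ, eVariationOn (fun s : ℝ => g (s : T1)) (Icc y (y + 1)) ≤ ENNReal.ofReal V

def B1Stm : Prop := ∀ (g : T1 → ℝ) (V : ℝ), 0 ≤ V → Measurable g → BVc g V →
  ∀ (j : ℕ) (x : T1),
  |∑ t ∈ Finset.range (Q j), g (rot x t) - (Q j : ℝ) * ∫ z : T1, g z| ≤ V

def B2Stm : Prop := ∀ (g : T1 → ℝ) (V : ℝ), 0 ≤ V → Measurable g → BVc g V → ∀ ε : ℝ, 0 < ε →
  ∃ n₀ : ℕ, ∀ n ≥ n₀, ∀ x : T1,
  |∑ t ∈ Finset.range n, g (rot x t) - (n : ℝ) * ∫ z : T1, g z| ≤ ε * n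

/-! ## C. the roof function -/

/-- elementary bounds for `r` -/
def C1Stm : Prop := AntitoneOn r (Ioi 0) ∧ (∀ D, 0 < D → 1 ≤ r D) ∧
  (∀ D, 0 < D → r D ≤ 1 / (2 * √D) + 1) ∧ (∀ D, 0 < D → 1 / (2 * √D) - 1 / 2 ≤ r D)

def C2Stm : Prop := ∀ ε : ℝ, 0 < ε → ∃ δ : ℝ, 0 < δ ∧ ∃ n₀ : ℕ, ∀ n ≥ n₀, ∀ x : T1,
  (tb - ε) * n ≤ ∑ t ∈ Finset.range n, Rt δ (rot x t)

def C3Stm : Prop := ∃ C : ℝ, ∀ (j : ℕ) (x : T1),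
  ∑ t ∈ Finset.range (Q j), Rt (1 / (4 * (Q j : ℝ))) (rot x t) ≤ (Q j : ℝ) * tb + C * √(Q j : ℝ)

/-! ## D. the sheet cocycle -/

def D1Stm : Prop := ∀ (j : ℕ) (x : T1) (t : ℕ),
  sgn x t = (-1) ^ Psi j x * (-1) ^ Psi j (rot x t) * (-1) ^ visits (arc (uu j) (be - uu j)) x t

/-- `κ` is the limit frequency constant -/
def IsKappa (κ : ℝ) : Prop := 1 / 2 ≤ κ ∧ κ ≤ 1 ∧ ∀ ε : ℝ, 0 < ε → ∃ j₀ : ℕ, ∃ C : ℝ, 1 ≤ j₀ ∧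
  ∀ j ≥ j₀, ∀ (l : ℕ) (x : T1),
    |∑ t ∈ Finset.range l, (-1 : ℝ) ^ Psi j (rot x t) - κ * l| ≤ ε * l + C * (Q (j - 1) : ℝ)

def D2Stm : Prop := ∃ κ : ℝ, IsKappa κ

/-! ## E. the two discrete theorems -/

/-- lower bound: spending time on both sheets costs waiting time -/
def E1Stm : Prop := ∀ κ : ℝ, IsKappa κ → ∀ ε : ℝ, 0 < ε → ∃ n₀ : ℕ, ∀ n ≥ n₀, ∀ x : T1,
  Free x n → 1 / 16 * √(((n : ℝ) ^ 2 - (SS x n / κ) ^ 2) / 4) ≤ TT x n - tb * n + ε * n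

/-- existence of good windows: `m Q_j` laps on one side, then `Q_j` laps on the other side -/
def E2Stm : Prop := ∀ κ : ℝ, IsKappa κ → ∃ C : ℝ, ∀ m : ℕ, 1 ≤ m → ∀ ε : ℝ, 0 < ε →
  ∃ j₀ : ℕ, ∀ j ≥ j₀, ∃ (x : T1) (s : ℝ), (s = 1 ∨ s = -1) ∧ Free x ((m + 1) * Q j) ∧
    TT x ((m + 1) * Q j) ≤ tb * ((m + 1) * Q j : ℝ) + (C * √(m : ℝ) + ε) * (Q j : ℝ) ∧
    |s * SS x ((m + 1) * Q j) - κ * ((m : ℝ) - 1) * (Q j : ℝ)| ≤ ε * (Q j : ℝ)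

/-! ## T. the flow -/

def T1Stm : Prop := ∃ lam : ℝ → T1 × T1 → ℝ, IsLam lam

def T2Stm : Prop := ∀ F0 : T1 × T1 → ℂ, HF F0 → ∀ lam : ℝ → T1 × T1 → ℝ, IsLam lam →
  ∃ Φ : ℝ → SF F0 → SF F0, IsFlow F0 lam Φ

/-- displacement of the two circle-valued maps of the two sheets, in terms of the discrete data -/
def T3Stm : Prop := ∀ F0 : T1 × T1 → ℂ, HF F0 → ∀ (lam : ℝ → T1 × T1 → ℝ)
  (Φ : ℝ → SF F0 → SF F0), IsLam lam → IsFlow F0 lam Φ →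
  ∃ (φ0 φ1 : C(SF F0, T1)) (C : ℝ),
    (∀ (q : SF F0) (N : ℕ) (δ0 δ1 : ℝ), IsDisp Φ φ0 q N δ0 → IsDisp Φ φ1 q N δ1 →
      ∃ (x : T1) (m : ℕ) (s : ℝ), (s = 1 ∨ s = -1) ∧ Free x m ∧ TT x m ≤ N ∧
        |δ0 - (m + s * SS x m) / 2| ≤ C ∧ |δ1 - (m - s * SS x m) / 2| ≤ C) ∧
    (∀ (x : T1) (m : ℕ) (s : ℝ), (s = 1 ∨ s = -1) → Free x m →
      ∃ (q : SF F0) (N : ℕ), TT x m ≤ N ∧ (N : ℝ) ≤ TT x m + C ∧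
        ∀ δ0 δ1 : ℝ, IsDisp Φ φ0 q N δ0 → IsDisp Φ φ1 q N δ1 →
          |δ0 - (m + s * SS x m) / 2| ≤ C ∧ |δ1 - (m - s * SS x m) / 2| ≤ C)

/-! ## G. general facts on displacements -/

/-- along a subsequence the displacements of all circle-valued maps converge -/
def G1Stm : Prop := ∀ (S : Type) [TopologicalSpace S] [CompactSpace S] [TopologicalSpace.MetrizableSpace S]
  (F : ℝ → S → S), ContinuousOn (fun p : ℝ × S => F p.1 p.2) (Icc 0 1 ×ˢ univ) →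
  (∀ x, F 0 x = x) → ∀ (x : ℕ → S) (n : ℕ → ℕ), Tendsto n atTop atTop →
  ∃ ω : ℕ → ℕ, StrictMono ω ∧ ∃ (v : C(S, T1) → ℝ) (δ : C(S, T1) → ℕ → ℝ),
    (∀ φ k, IsDisp F φ (x (ω k)) (n (ω k)) (δ φ k)) ∧
    ∀ φ, Tendsto (fun k => δ φ k / n (ω k)) atTop (𝓝 (v φ))

/-- transport of the property by a homeomorphism -/
def FinConv {S : Type} [TopologicalSpace S] (F : ℝ → S → S) : Prop :=
  ∃ 𝒞 : Set (Set (C(S, T1) → ℝ)), 𝒞.Finite ∧ (∀ A ∈ 𝒞, Convex ℝ A) ∧ rotSet F = ⋃₀ 𝒞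

def G2Stm : Prop := ∀ (S M : Type) [TopologicalSpace S] [TopologicalSpace M] (h : M ≃ₜ S)
  (F : ℝ → S → S), FinConv (fun t x => h.symm (F t (h x))) → FinConv F

/-! ## K. the genus 2 surface -/

/-- the double of the torus minus an open disc:
`{(z₁,z₂,h) ∈ S¹ × S¹ × ℝ : h² + Re z₁ + Re z₂ = 1 + cos (π β)}` -/
def Mc : Set (Circle × Circle × ℝ) :=
  {p | p.2.2 ^ 2 + (p.1 : ℂ).re + (p.2.1 : ℂ).re = 1 + Real.cos (Real.pi * be)}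

def K1Stm : Prop := ∃ F0 : T1 × T1 → ℂ, HF F0 ∧ Nonempty (Mc ≃ₜ SF F0)

/-! ## final -/

def FinalStm : Prop := ∃ F : ℝ → Mc → Mc,
  ContinuousOn (fun p : ℝ × Mc => F p.1 p.2) (Icc 0 1 ×ˢ univ) ∧ (∀ x, F 0 x = x) ∧
  (∀ t ∈ Icc (0 : ℝ) 1, IsHomeomorph (F t)) ∧ ¬ FinConv F

end

end Pool.Agent.Y267.RS
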