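import Pool.Agent.Y267.RS.Fin3
import Pool.Agent.Y447.RSK1

set_option autoImplicit false

/-!
# Project RS: all genera, by cyclic coverings
-/

namespace Pool.Agent.Y267.RS

open Set Filter Topology MeasureTheory

noncomputable section

/-- the double of the torus minus `k` open discs (genus `k+1` for `0 < c < 2`, `k ≥ 1`) -/
def surf (c : ℝ) (k : ℕ) : Set (Circle × Circle × ℝ) :=
  {p | p.2.2 ^ 2 + ((p.1 ^ k : Circle) : ℂ).re + (p.2.1 : ℂ).re = c}

theorem surf_compact (c : ℝ) (k : ℕ) : IsCompact (surf c k) := by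
  apply IsCompact.of_isClosed_subset
    ((isCompact_univ (X := Circle)).prod ((isCompact_univ (X := Circle)).prod
      (isCompact_Icc (a := -(|c| + 3)) (b := |c| + 3))))
  · apply isClosed_eq
    · have h1 : Continuous (fun p : Circle × Circle × ℝ => ((p.1 ^ k : Circle) : ℂ).re) :=
        Complex.continuous_re.comp (continuous_subtype_val.comp (continuous_fst.pow k))
      have h2 : Continuous (fun p : Circle × Circle × ℝ => (p.2.1 : ℂ).re) :=
        Complex.continuous_re.comp (continuous_subtype_val.comp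
          (continuous_fst.comp continuous_snd))
      exact (((continuous_snd.comp continuous_snd).pow 2).add h1).add h2
    · exact continuous_const
  · intro p hp
    refine ⟨mem_univ _, mem_univ _, ?_⟩
    have hp' : p.2.2 ^ 2 + ((p.1 ^ k : Circle) : ℂ).re + (p.2.1 : ℂ).re = c := hp
    have h1 : -1 ≤ ((p.1 ^ k : Circle) : ℂ).re := by
      have := Complex.abs_re_le_norm ((p.1 ^ k : Circle) : ℂ)
      rw [Circle.norm_coe] at this
      exact (abs_le.1 this).1
    have h2 : -1 ≤ (p.2.1 : ℂ).re := by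
      have := Complex.abs_re_le_norm (p.2.1 : ℂ)
      rw [Circle.norm_coe] at this
      exact (abs_le.1 this).1
    have h3 : p.2.2 ^ 2 ≤ |c| + 2 := by linarith [le_abs_self c]
    have h4 : 0 ≤ |c| := abs_nonneg c
    rw [mem_Icc, ← abs_le]
    by_contra hcon
    push Not at hcon
    have : (|c| + 3) ^ 2 < |p.2.2| ^ 2 := by
      apply pow_lt_pow_left₀ hcon (by positivity) (by norm_num)
    rw [sq_abs] at this
    nlinarith

theorem disp_unique {S : Type} [TopologicalSpace S] {F : ℝ → S → S} {φ : C(S, T1)} {x : S} {n : ℕ}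
    {δ δ' : ℝ} (h : IsDisp F φ x n δ) (h' : IsDisp F φ x n δ') : δ = δ' := by
  obtain ⟨g, hg, hg2, hg3⟩ := h
  obtain ⟨g', hg', hg2', hg3'⟩ := h'
  rcases Nat.eq_zero_or_pos n with rfl | hn
  · simp only [Nat.cast_zero] at hg3 hg3'
    linarith
  have := int_const (f := fun s => g s - g' s) (Nat.cast_nonneg n) (hg.sub hg') (by
    intro s hs
    rw [AddCircle.coe_sub]
    have key : ∀ (j : ℕ), j < n → ∀ s' ∈ Icc (0 : ℝ) 1, s = j + s' →
        ((g s : ℝ) : T1) - ((g' s : ℝ) : T1) = 0 := by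
      intro j hj s' hs' he
      rw [he, hg2 j hj s' hs', hg2' j hj s' hs', sub_self]
    rcases eq_or_lt_of_le hs.2 with h | h
    · apply key (n - 1) (by omega) 1 ⟨by norm_num, le_rfl⟩
      rw [h, Nat.cast_sub hn]
      push_cast
      ring
    · exact key ⌊s⌋₊ ((Nat.floor_lt hs.1).2 h) (s - ⌊s⌋₊)
        ⟨by linarith [Nat.floor_le hs.1], by linarith [Nat.lt_floor_add_one s]⟩ (by ring))
  linarith

/-- push-forward under a semi-conjugacy -/
theorem push (hG1 : G1Stm) {S S' : Type} [TopologicalSpace S] [TopologicalSpace S']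
    [CompactSpace S'] [TopologicalSpace.MetrizableSpace S'] (p : C(S', S))
    (hp : Function.Surjective p) (F : ℝ → S → S) (F' : ℝ → S' → S')
    (hF' : ContinuousOn (fun q : ℝ × S' => F' q.1 q.2) (Icc 0 1 ×ˢ univ))
    (h0 : ∀ x, F' 0 x = x) (hs : ∀ t ∈ Icc (0 : ℝ) 1, ∀ x, p (F' t x) = F t (p x)) :
    FinConv F' → FinConv F := by
  rintro ⟨𝒞, hfin, hconv, hrot⟩
  have hiter : ∀ (j : ℕ) (x : S'), p ((F' 1)^[j] x) = (F 1)^[j] (p x) := by
    intro j
    induction j with
    | zero => intro x; rfl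
    | succ j ih =>
      intro x
      rw [Function.iterate_succ_apply', Function.iterate_succ_apply', hs 1 ⟨by norm_num, le_rfl⟩, ih]
  have hdisp : ∀ (φ : C(S, T1)) (x : S') (n : ℕ) (δ : ℝ),
      IsDisp F' (φ.comp p) x n δ ↔ IsDisp F φ (p x) n δ := by
    intro φ x n δ
    have hv : ∀ (j : ℕ), ∀ s ∈ Icc (0 : ℝ) 1,
        (φ.comp p) (F' s ((F' 1)^[j] x)) = φ (F s ((F 1)^[j] (p x))) := by
      intro j s hs'
      rw [ContinuousMap.comp_apply, hs s hs', hiter]
    constructor
    · rintro ⟨g, hg, hg2, hg3⟩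
      exact ⟨g, hg, fun j hj s hs' => (hg2 j hj s hs').trans (hv j s hs'), hg3⟩
    · rintro ⟨g, hg, hg2, hg3⟩
      exact ⟨g, hg, fun j hj s hs' => (hg2 j hj s hs').trans (hv j s hs').symm, hg3⟩
  let L : (C(S', T1) → ℝ) →ₗ[ℝ] (C(S, T1) → ℝ) :=
    { toFun := fun v φ => v (φ.comp p)
      map_add' := fun _ _ => rfl
      map_smul' := fun _ _ => rfl }
  have hL : L '' rotSet F' = rotSet F := by
    ext v
    constructor
    · rintro ⟨v', ⟨x, n, δ, hn, hd, hlim⟩, rfl⟩
      exact ⟨fun k => p (x k), n, fun φ k => δ (φ.comp p) k, hn,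
        fun φ k => (hdisp φ _ _ _).1 (hd _ k), fun φ => hlim _⟩
    · rintro ⟨x, n, δ, hn, hd, hlim⟩
      choose x' hx' using fun k => hp (x k)
      obtain ⟨ω, hω, v', δ', hd', hlim'⟩ := hG1 S' F' hF' h0 x' n hn
      refine ⟨v', ⟨fun k => x' (ω k), fun k => n (ω k), δ', hn.comp hω.tendsto_atTop, hd', hlim'⟩, ?_⟩
      funext φ
      show v' (φ.comp p) = v φ
      refine tendsto_nhds_unique (hlim' (φ.comp p)) ?_
      have h1 : Tendsto (fun k => δ φ (ω k) / n (ω k)) atTop (𝓝 (v φ)) :=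
        (hlim φ).comp hω.tendsto_atTop
      refine h1.congr fun k => ?_
      have h2 := (hdisp φ _ _ _).1 (hd' (φ.comp p) k)
      rw [hx'] at h2
      rw [disp_unique (hd φ (ω k)) h2]
  refine ⟨(fun A => L '' A) '' 𝒞, hfin.image _, ?_, ?_⟩
  · rintro _ ⟨A, hA, rfl⟩
    exact (hconv A hA).linear_image L
  · rw [← hL, hrot, image_sUnion]

open Pool.Agent.Y447.RSK1 in
theorem final_all (h6 : A6Stm) (hc1 : C1Stm) (hD2 : D2Stm) (hE1 : E1Stm) (hE2 : E2Stm)
    (hT1 : T1Stm) (hT2 : T2Stm) (hT3 : T3Stm) (hG1 : G1Stm) (hG2 : G2Stm) (k : ℕ) (hk : 1 ≤ k) :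
    ∃ F : ℝ → surf (1 + Real.cos (Real.pi * be)) k → surf (1 + Real.cos (Real.pi * be)) k,
      ContinuousOn (fun p : ℝ × surf (1 + Real.cos (Real.pi * be)) k => F p.1 p.2)
        (Icc 0 1 ×ˢ univ) ∧ (∀ x, F 0 x = x) ∧
      (∀ t ∈ Icc (0 : ℝ) 1, IsHomeomorph (F t)) ∧ ¬ FinConv F := by
  set c : ℝ := 1 + Real.cos (Real.pi * be) with hcdef
  have hF := theHF h6
  obtain ⟨lam, hl⟩ := hT1
  obtain ⟨Φ, hΦ⟩ := hT2 (F0 h6) hF lam hl
  have hcore := core hc1 hD2 hE1 hE2 hT3 hG1 hF hl hΦ
  set h := theHomeo h6 with hh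
  let Fm : ℝ → Mc → Mc := fun t x => h.symm (Φ t (h x))
  have hFm : ¬ FinConv Fm := fun hfc => hcore (hG2 (SF (F0 h6)) Mc h Φ hfc)
  have hPh : ∀ q : Mc, (h q).1.1 = P h6 q := fun q => rfl
  have hFm0 : ∀ q, Fm 0 q = q := by
    intro q
    show h.symm (Φ 0 (h q)) = q
    rw [hΦ.zero, h.symm_apply_apply]
  have hFmadd : ∀ s t q, Fm (s + t) q = Fm t (Fm s q) := by
    intro s t q
    show h.symm (Φ (s + t) (h q)) = h.symm (Φ t (h (h.symm (Φ s (h q)))))
    rw [h.apply_symm_apply, hΦ.add]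
  have hFmc : Continuous (Function.uncurry Fm) :=
    h.symm.continuous.comp (hΦ.cont.comp
      (continuous_fst.prodMk (h.continuous.comp continuous_snd)))
  have hPF : ∀ t q, P h6 (Fm t q) = mv (P h6 q) (lam t (P h6 q)) := by
    intro t q
    rw [← hPh, ← hPh]
    show (h (h.symm (Φ t (h q)))).1.1 = _
    rw [h.apply_symm_apply, hΦ.base]
  have hfst : ∀ t q, (Fm t q).1.1 = q.1.1 * Circle.exp (2 * Real.pi * (al * lam t (P h6 q))) := by
    intro t q
    have h1 := P_fst h6 (Fm t q) _ (congrArg Prod.fst (hPF t q))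
    have h2 := P_fst h6 q _ rfl
    rw [h1, h2, ← hc_coe]
    unfold mv
    simp only
    have h3 : (P h6 q).1 + ((al * lam t (P h6 q) : ℝ) : T1) - ((be / 2 : ℝ) : T1) =
        ((P h6 q).1 - ((be / 2 : ℝ) : T1)) + ((al * lam t (P h6 q) : ℝ) : T1) := by abel
    rw [h3]
    have hadd : ∀ a b : T1, hc (a + b) = hc a * hc b := by
      intro a b
      induction a using QuotientAddGroup.induction_on with
      | H a =>
        induction b using QuotientAddGroup.induction_on with
        | H b =>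
          have e1 : hc (((a : ℝ) : T1) + ((b : ℝ) : T1)) =
              hc ((a : ℝ) : T1) * hc ((b : ℝ) : T1) := by
            rw [← AddCircle.coe_add, hc_coe, hc_coe, hc_coe, ← Circle.exp_add]
            congr 1
            ring
          exact e1
    rw [hadd]
  -- the covering
  have hmem : ∀ p ∈ surf c k, (p.1 ^ k, p.2) ∈ Mc := by
    intro p hp
    exact hp
  let pr : C(surf c k, Mc) :=
    { toFun := fun p => ⟨(p.1.1 ^ k, p.1.2), hmem _ p.2⟩
      continuous_toFun := by
        apply Continuous.subtype_mk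
        exact ((continuous_fst.comp continuous_subtype_val).pow k).prodMk
          (continuous_snd.comp continuous_subtype_val) }
  have hk0 : (k : ℝ) ≠ 0 := by positivity
  have hexp : ∀ a : ℝ, Circle.exp (a / k) ^ k = Circle.exp a := by
    intro a
    rw [← Circle.exp_nsmul, nsmul_eq_mul]
    congr 1
    field_simp
  have hprs : Function.Surjective pr := by
    intro q
    obtain ⟨a, ha⟩ : ∃ a : ℝ, Circle.exp a = q.1.1 := ⟨Complex.arg q.1.1, Circle.exp_arg _⟩
    have hq : ((Circle.exp (a / k), q.1.2) : Circle × Circle × ℝ) ∈ surf c k := by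
      show q.1.2.2 ^ 2 + ((Circle.exp (a / k) ^ k : Circle) : ℂ).re + (q.1.2.1 : ℂ).re = c
      rw [hexp, ha]
      exact q.2
    refine ⟨⟨_, hq⟩, ?_⟩
    apply Subtype.ext
    show ((Circle.exp (a / k) ^ k, q.1.2) : Circle × Circle × ℝ) = q.1
    rw [hexp, ha]
  have hmem2 : ∀ (t : ℝ) (p : surf c k),
      (p.1.1 * Circle.exp (2 * Real.pi * (al * lam t (P h6 (pr p))) / k), (Fm t (pr p)).1.2) ∈
        surf c k := by
    intro t p
    have h1 : (p.1.1 * Circle.exp (2 * Real.pi * (al * lam t (P h6 (pr p))) / k)) ^ k =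
        (Fm t (pr p)).1.1 := by
      rw [mul_pow, hexp, hfst]
      rfl
    show (Fm t (pr p)).1.2.2 ^ 2 + (((p.1.1 * Circle.exp (2 * Real.pi *
      (al * lam t (P h6 (pr p))) / k)) ^ k : Circle) : ℂ).re + ((Fm t (pr p)).1.2.1 : ℂ).re = c
    rw [h1]
    exact (Fm t (pr p)).2
  let G : ℝ → surf c k → surf c k := fun t p =>
    ⟨(p.1.1 * Circle.exp (2 * Real.pi * (al * lam t (P h6 (pr p))) / k), (Fm t (pr p)).1.2),
      hmem2 t p⟩
  have hprG : ∀ t p, pr (G t p) = Fm t (pr p) := by
    intro t p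
    apply Subtype.ext
    show (((p.1.1 * Circle.exp (2 * Real.pi * (al * lam t (P h6 (pr p))) / k)) ^ k,
      (Fm t (pr p)).1.2) : Circle × Circle × ℝ) = (Fm t (pr p)).1
    have h1 : (p.1.1 * Circle.exp (2 * Real.pi * (al * lam t (P h6 (pr p))) / k)) ^ k =
        (Fm t (pr p)).1.1 := by
      rw [mul_pow, hexp, hfst]
      rfl
    rw [h1]
  have hGc : Continuous (Function.uncurry G) := by
    apply Continuous.subtype_mk
    have e1 : Continuous (fun q : ℝ × surf c k => pr q.2) := pr.continuous.comp continuous_snd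
    have e2 : Continuous (fun q : ℝ × surf c k => lam q.1 (P h6 (pr q.2))) :=
      hl.cont.comp (continuous_fst.prodMk ((cont_P h6).comp e1))
    have e3 : Continuous (fun q : ℝ × surf c k =>
        Circle.exp (2 * Real.pi * (al * lam q.1 (P h6 (pr q.2))) / k)) :=
      Circle.exp.continuous.comp ((continuous_const.mul (continuous_const.mul e2)).div_const _)
    have e4 : Continuous (fun q : ℝ × surf c k => (Fm q.1 (pr q.2)).1.2) :=
      continuous_snd.comp (continuous_subtype_val.comp (hFmc.comp (continuous_fst.prodMk e1)))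
    exact ((continuous_fst.comp (continuous_subtype_val.comp continuous_snd)).mul e3).prodMk e4
  have hG0 : ∀ p, G 0 p = p := by
    intro p
    apply Subtype.ext
    show ((p.1.1 * Circle.exp (2 * Real.pi * (al * lam 0 (P h6 (pr p))) / k),
      (Fm 0 (pr p)).1.2) : Circle × Circle × ℝ) = p.1
    rw [hl.zero, hFm0]
    simp only [mul_zero, zero_div, Circle.exp_zero, mul_one]
    rfl
  have hGinv : ∀ t p, G (-t) (G t p) = p := by
    intro t p
    apply Subtype.ext
    show (((G t p).1.1 * Circle.exp (2 * Real.pi * (al * lam (-t) (P h6 (pr (G t p)))) / k),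
      (Fm (-t) (pr (G t p))).1.2) : Circle × Circle × ℝ) = p.1
    rw [hprG, hPF, ← hFmadd, add_neg_cancel, hFm0]
    have h1 : lam (-t) (mv (P h6 (pr p)) (lam t (P h6 (pr p)))) = - lam t (P h6 (pr p)) := by
      have := hl.add t (-t) (P h6 (pr p))
      rw [add_neg_cancel, hl.zero] at this
      linarith
    rw [h1]
    have h2 : (G t p).1.1 = p.1.1 * Circle.exp (2 * Real.pi * (al * lam t (P h6 (pr p))) / k) := rfl
    rw [h2, mul_assoc, ← Circle.exp_add]
    have h3 : 2 * Real.pi * (al * lam t (P h6 (pr p))) / k +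
        2 * Real.pi * (al * -lam t (P h6 (pr p))) / k = 0 := by ring
    rw [h3, Circle.exp_zero, mul_one]
    rfl
  have : CompactSpace (surf c k) := isCompact_iff_compactSpace.1 (surf_compact c k)
  refine ⟨G, hGc.continuousOn, hG0, ?_, ?_⟩
  · intro t _
    have hcont : ∀ s : ℝ, Continuous (G s) := fun s =>
      hGc.comp (continuous_const.prodMk continuous_id)
    let e : surf c k ≃ₜ surf c k :=
      { toFun := G t
        invFun := G (-t)
        left_inv := fun q => hGinv t q
        right_inv := fun q => by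
          have := hGinv (-t) q
          rwa [neg_neg] at this
        continuous_toFun := hcont t
        continuous_invFun := hcont (-t) }
    exact e.isHomeomorph
  · intro hfc
    exact hFm (push hG1 pr hprs Fm G hGc.continuousOn hG0 (fun t _ x => hprG t x) hfc)

end

end Pool.Agent.Y267.RS
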