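import Mathlib

set_option autoImplicit false

/-!
# Project RS: homological rotation sets in genus 2 (definitions)

`T1 = ℝ/ℤ`.  Numbers: `Q j = 2^(10*3^j)`, `al = ∑ 1/Q j`, `th j = Q j * ∑_{i>j} 1/Q i`
(so `Q j * al ≡ th j`, `th j ≈ (Q j)⁻²`), `uu j = 2 ∑_{i<j} th i`, `be = 2 ∑ th i`.
-/

namespace Pool.Agent.Y267.RS

open Set Filter Topology MeasureTheory

noncomputable section

/-- the circle `ℝ/ℤ` -/
abbrev T1 := AddCircle (1 : ℝ)

/-! ## numbers -/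

/-- `Q j = 2^(10*3^j)`, so `Q (j+1) = (Q j)^3` -/
def Q (j : ℕ) : ℕ := 2 ^ (10 * 3 ^ j)

/-- the rotation number -/
def al : ℝ := ∑' j : ℕ, 1 / (Q j : ℝ)

/-- `th j = Q j * ∑_{i>j} 1/Q i` -/
def th (j : ℕ) : ℝ := (Q j : ℝ) * ∑' i : ℕ, 1 / (Q (j + 1 + i) : ℝ)

/-- `uu j = 2 ∑_{i<j} th i` -/
def uu (j : ℕ) : ℝ := 2 * ∑ i ∈ Finset.range j, th i

/-- slit length -/
def be : ℝ := 2 * ∑' i : ℕ, th i

/-- `x + t α` on the circle -/
def rot (x : T1) (t : ℕ) : T1 := x + (((t : ℝ) * al : ℝ) : T1)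

/-- the half-open arc `[a, a+l)` of the circle -/
def arc (a l : ℝ) : Set T1 := {x | ∃ y ∈ Ico (0 : ℝ) l, x = ((a + y : ℝ) : T1)}

open Classical in
/-- indicator with natural number values -/
def ind (A : Set T1) (x : T1) : ℕ := if x ∈ A then 1 else 0

/-- number of visits of `x, x+α, …, x+(n-1)α` to `A` -/
def visits (A : Set T1) (x : T1) (n : ℕ) : ℕ := ∑ s ∈ Finset.range n, ind A (rot x s)

/-- the sheet after crossing the seam at `x_0, …, x_{t-1}` (sheet `0` at the beginning), as a sign -/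
def sgn (x : T1) (t : ℕ) : ℝ := (-1) ^ visits (arc 0 be) x t

/-- `(number of laps in the initial sheet) - (number of laps in the other sheet)` among `n` laps -/
def SS (x : T1) (n : ℕ) : ℝ := ∑ t ∈ Finset.range n, sgn x t

/-- `ψ_i(x) = ∑_{s=1}^{Q_i} 1_{[u_i,u_i+θ_i)}(x - s α)` -/
def psi (i : ℕ) (x : T1) : ℕ :=
  ∑ s ∈ Finset.Icc 1 (Q i), ind (arc (uu i) (th i)) (x - (((s : ℝ) * al : ℝ) : T1))

/-- `Ψ_j = ∑_{i<j} ψ_i` -/
def Psi (j : ℕ) (x : T1) : ℕ := ∑ i ∈ Finset.range j, psi i x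

/-! ## the roof function -/

/-- cost of passing one singular point at distance `D > 0` (per lap) -/
def r (D : ℝ) : ℝ := if D < 1 / 4 then 1 / (2 * √D) + 2 * D - 1 / 2 else 1

/-- time of the lap through the seam point `x` (for `x ≠ 0, β`) -/
def R (x : T1) : ℝ := r ‖x‖ + r ‖x - (be : T1)‖ - 1

/-- truncated roof function -/
def Rt (δ : ℝ) (x : T1) : ℝ := r (max ‖x‖ δ) + r (max ‖x - (be : T1)‖ δ) - 1

/-- mean return time -/
def tb : ℝ := ∫ x : T1, R x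

/-- the first `n` points of the orbit avoid the two singular points -/
def Free (x : T1) (n : ℕ) : Prop := ∀ t < n, rot x t ≠ 0 ∧ rot x t ≠ (be : T1)

/-- total time of the laps `0, …, n-1` -/
def TT (x : T1) (n : ℕ) : ℝ := ∑ t ∈ Finset.range n, R (rot x t)

/-! ## displacement and rotation sets -/

/-- `δ` is the total variation (lift increment) of `φ` along the path `I^n(x)` of the isotopy `F`
(`F t`, `0 ≤ t ≤ 1`, from `F 0 = id` to `f = F 1`). -/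
def IsDisp {S : Type*} [TopologicalSpace S] (F : ℝ → S → S) (φ : C(S, T1)) (x : S) (n : ℕ)
    (δ : ℝ) : Prop :=
  ∃ g : ℝ → ℝ, ContinuousOn g (Icc 0 (n : ℝ)) ∧
    (∀ j : ℕ, j < n → ∀ s ∈ Icc (0 : ℝ) 1, ((g (j + s) : ℝ) : T1) = φ (F s ((F 1)^[j] x))) ∧
    g n - g 0 = δ

/-- the rotation set, as a set of functionals on `C(S, ℝ/ℤ)` -/
def rotSet {S : Type*} [TopologicalSpace S] (F : ℝ → S → S) : Set (C(S, T1) → ℝ) :=
  {v | ∃ (x : ℕ → S) (n : ℕ → ℕ) (δ : C(S, T1) → ℕ → ℝ), Tendsto n atTop atTop ∧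
    (∀ φ k, IsDisp F φ (x k) (n k) (δ φ k)) ∧
    ∀ φ, Tendsto (fun k => δ φ k / n k) atTop (𝓝 (v φ))}

/-! ## the branched double cover -/

/-- the hypotheses on the function `F0` on the torus defining the double cover
`w² = F0 (x,t)`, branched at `(0,0)` and `(β,0)`, slit `[0,β] × {0}` -/
structure HF (F0 : T1 × T1 → ℂ) : Prop where
  cont : Continuous F0
  up : ∀ (x : T1) (u : ℝ), 0 < u → u < 1 / 2 → 0 < (F0 (x, (u : T1))).im
  down : ∀ (x : T1) (u : ℝ), 0 < u → u < 1 / 2 → (F0 (x, ((-u : ℝ) : T1))).im < 0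
  top_im : ∀ x : T1, (F0 (x, ((1 / 2 : ℝ) : T1))).im = 0
  top_re : ∀ x : T1, 0 < (F0 (x, ((1 / 2 : ℝ) : T1))).re
  seam_im : ∀ x : T1, (F0 (x, 0)).im = 0
  seam_neg : ∀ y : ℝ, 0 < y → y < be → (F0 ((y : T1), 0)).re < 0
  seam_zero0 : F0 (0, 0) = 0
  seam_zero1 : F0 ((be : T1), 0) = 0
  seam_pos : ∀ y : ℝ, be < y → y < 1 → 0 < (F0 ((y : T1), 0)).re

/-- the double cover -/
def SF (F0 : T1 × T1 → ℂ) : Set ((T1 × T1) × ℂ) := {p | p.2 ^ 2 = F0 p.1}

/-- `min 1 ((4 s)^{3/2})` -/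
def sp (s : ℝ) : ℝ := min 1 ((4 * s) * √(4 * s))

/-- triangle wave: `om t = t` for `|t| ≤ 1/4`, `om (1/2 ± s) = ∓ s` for `0 ≤ s ≤ 1/4` -/
def om (t : T1) : ℝ := ‖t + ((1 / 4 : ℝ) : T1)‖ - 1 / 4

/-- speed factor of one singular point at seam position `p`: along the flow line through the seam
point `y` it is `sp (‖y - p‖ + ‖t‖)` -/
def sq (p : T1) (z : T1 × T1) : ℝ := sp (‖z.1 - ((al * om z.2 : ℝ) : T1) - p‖ + ‖z.2‖)

/-- the speed -/
def vv (z : T1 × T1) : ℝ :=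
  sq 0 z * sq (be : T1) z / (sq 0 z + sq (be : T1) z - sq 0 z * sq (be : T1) z)

/-- moving along the linear flow of direction `(α,1)` -/
def mv (z : T1 × T1) (u : ℝ) : T1 × T1 := (z.1 + ((al * u : ℝ) : T1), z.2 + ((u : ℝ) : T1))

/-- `lam s z` is the displacement after time `s` of the flow with velocity `v(z) (α,1)` -/
structure IsLam (lam : ℝ → T1 × T1 → ℝ) : Prop where
  cont : Continuous (Function.uncurry lam)
  zero : ∀ z, lam 0 z = 0
  der : ∀ s z, HasDerivAt (fun s' => lam s' z) (vv (mv z (lam s z))) s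
  add : ∀ s s' z, lam (s + s') z = lam s z + lam s' (mv z (lam s z))

/-- the lifted flow on `SF F0` (as a map of the ambient space; `Φ s` preserves `SF F0`) -/
structure IsFlow (F0 : T1 × T1 → ℂ) (lam : ℝ → T1 × T1 → ℝ) (Φ : ℝ → SF F0 → SF F0) : Prop where
  cont : Continuous (Function.uncurry Φ)
  zero : ∀ q, Φ 0 q = q
  add : ∀ s s' q, Φ (s + s') q = Φ s' (Φ s q)
  base : ∀ s q, (Φ s q).1.1 = mv q.1.1 (lam s q.1.1)

end

end Pool.Agent.Y267.RS
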