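import Pool.Agent.Y267.RS.T3e

set_option autoImplicit false

/-!
# Project RS: the rotation set is not a finite union of convex sets
-/

namespace Pool.Agent.Y267.RS

open Set Filter Topology MeasureTheory

noncomputable section

theorem R_ge_one (hc1 : C1Stm) {x : T1} (h0 : x ≠ 0) (h1 : x ≠ (be : T1)) : 1 ≤ R x := by
  have e0 := hc1.2.1 ‖x‖ (norm_pos_iff.2 h0)
  have e1 := hc1.2.1 ‖x - (be : T1)‖ (norm_pos_iff.2 (sub_ne_zero.2 h1))
  unfold R
  linarith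

theorem TT_ge (hc1 : C1Stm) {x : T1} {n : ℕ} (h : Free x n) : (n : ℝ) ≤ TT x n := by
  unfold TT
  calc (n : ℝ) = ∑ t ∈ Finset.range n, (1 : ℝ) := by simp
    _ ≤ ∑ t ∈ Finset.range n, R (rot x t) := by
        apply Finset.sum_le_sum
        intro t ht
        have := h t (Finset.mem_range.1 ht)
        exact R_ge_one hc1 this.1 this.2

theorem SS_abs (x : T1) (n : ℕ) : |SS x n| ≤ n := by
  unfold SS sgn
  calc |∑ t ∈ Finset.range n, (-1 : ℝ) ^ visits (arc 0 be) x t| ≤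
      ∑ t ∈ Finset.range n, |(-1 : ℝ) ^ visits (arc 0 be) x t| := Finset.abs_sum_le_sum_abs _ _
    _ = n := by simp

/-- lower bound with an additive constant, valid for all `n` -/
theorem low_all (hc1 : C1Stm) (hE1 : E1Stm) {κ : ℝ} (hκ : IsKappa κ) {ε : ℝ} (hε : 0 < ε) :
    ∃ K : ℝ, 0 ≤ K ∧ ∀ (n : ℕ) (x : T1), Free x n →
      1 / 16 * √(((n : ℝ) ^ 2 - (SS x n / κ) ^ 2) / 4) ≤ TT x n - tb * n + ε * n + K := by
  obtain ⟨n₀, hn₀⟩ := hE1 κ hκ ε hε
  refine ⟨(1 + |tb|) * n₀, by positivity, ?_⟩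
  intro n x hx
  rcases le_total n₀ n with h | h
  · have := hn₀ n h x hx
    have h2 : 0 ≤ (1 + |tb|) * (n₀ : ℝ) := by positivity
    linarith
  · have hn : (n : ℝ) ≤ n₀ := by exact_mod_cast h
    have hn0 : (0 : ℝ) ≤ n := Nat.cast_nonneg n
    have h1 : √(((n : ℝ) ^ 2 - (SS x n / κ) ^ 2) / 4) ≤ n := by
      rw [Real.sqrt_le_left hn0]
      nlinarith [sq_nonneg (SS x n / κ), sq_nonneg (n : ℝ)]
    have h2 := TT_ge hc1 hx
    have h3 : tb * n ≤ |tb| * n₀ :=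
      (mul_le_mul_of_nonneg_right (le_abs_self tb) hn0).trans
        (mul_le_mul_of_nonneg_left hn (abs_nonneg tb))
    have h4 : 0 ≤ ε * n := by positivity
    nlinarith

section core

variable {F0 : T1 × T1 → ℂ} {Φ : ℝ → SF F0 → SF F0}

theorem upper_constraint (hc1 : C1Stm) (hE1 : E1Stm) {κ : ℝ} (hκ : IsKappa κ)
    {φ0 φ1 : C(SF F0, T1)} {C : ℝ}
    (h3 : ∀ (q : SF F0) (N : ℕ) (δ0 δ1 : ℝ), IsDisp Φ φ0 q N δ0 → IsDisp Φ φ1 q N δ1 →
      ∃ (x : T1) (m : ℕ) (s : ℝ), (s = 1 ∨ s = -1) ∧ Free x m ∧ TT x m ≤ N ∧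
        |δ0 - (m + s * SS x m) / 2| ≤ C ∧ |δ1 - (m - s * SS x m) / 2| ≤ C)
    {v : C(SF F0, T1) → ℝ} (hv : v ∈ rotSet Φ) :
    1 / 16 * √(((v φ0 + v φ1) ^ 2 - ((v φ0 - v φ1) / κ) ^ 2) / 4) ≤ 1 - tb * (v φ0 + v φ1) := by
  obtain ⟨x, n, δ, hn, hd, hlim⟩ := hv
  have hex := fun k => h3 (x k) (n k) _ _ (hd φ0 k) (hd φ1 k)
  choose X m s hs hfree hTT hδ0 hδ1 using hex
  have hκ0 : κ ≠ 0 := by have := hκ.1; intro h; rw [h] at this; norm_num at this
  have hnR : Tendsto (fun k => (n k : ℝ)) atTop atTop := tendsto_natCast_atTop_atTop.comp hn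
  have hC : Tendsto (fun k => 2 * C / (n k : ℝ)) atTop (𝓝 0) :=
    tendsto_const_nhds.div_atTop hnR
  have hnpos : ∀ᶠ k in atTop, (0 : ℝ) < n k := hnR.eventually_gt_atTop 0
  -- `m/n → ν`
  have hν : Tendsto (fun k => (m k : ℝ) / n k) atTop (𝓝 (v φ0 + v φ1)) := by
    have h1 : Tendsto (fun k => δ φ0 k / n k + δ φ1 k / n k) atTop (𝓝 (v φ0 + v φ1)) :=
      (hlim φ0).add (hlim φ1)
    have h2 : Tendsto (fun k => (m k : ℝ) / n k - (δ φ0 k / n k + δ φ1 k / n k)) atTop (𝓝 0) := by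
      apply squeeze_zero_norm' _ hC
      filter_upwards [hnpos] with k hk
      rw [Real.norm_eq_abs, ← add_div, ← sub_div, abs_div, abs_of_pos hk]
      apply div_le_div_of_nonneg_right _ hk.le
      have a0 := abs_le.1 (hδ0 k)
      have a1 := abs_le.1 (hδ1 k)
      rw [abs_le]
      constructor <;> linarith [a0.1, a0.2, a1.1, a1.2]
    have := h2.add h1
    simpa using this
  have hμ : Tendsto (fun k => (s k * SS (X k) (m k)) / n k) atTop (𝓝 (v φ0 - v φ1)) := by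
    have h1 : Tendsto (fun k => δ φ0 k / n k - δ φ1 k / n k) atTop (𝓝 (v φ0 - v φ1)) :=
      (hlim φ0).sub (hlim φ1)
    have h2 : Tendsto (fun k => (s k * SS (X k) (m k)) / n k - (δ φ0 k / n k - δ φ1 k / n k))
        atTop (𝓝 0) := by
      apply squeeze_zero_norm' _ hC
      filter_upwards [hnpos] with k hk
      rw [Real.norm_eq_abs, ← sub_div, ← sub_div, abs_div, abs_of_pos hk]
      apply div_le_div_of_nonneg_right _ hk.le
      have a0 := abs_le.1 (hδ0 k)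
      have a1 := abs_le.1 (hδ1 k)
      rw [abs_le]
      constructor <;> linarith [a0.1, a0.2, a1.1, a1.2]
    have := h2.add h1
    simpa using this
  apply le_of_forall_pos_le_add
  intro ε hε
  obtain ⟨K, hK0, hK⟩ := low_all hc1 hE1 hκ hε
  have hL : Tendsto (fun k => 1 / 16 * √((((m k : ℝ) / n k) ^ 2 -
      ((s k * SS (X k) (m k)) / n k / κ) ^ 2) / 4)) atTop
      (𝓝 (1 / 16 * √(((v φ0 + v φ1) ^ 2 - ((v φ0 - v φ1) / κ) ^ 2) / 4))) :=
    ((((hν.pow 2).sub ((hμ.div_const κ).pow 2)).div_const 4).sqrt).const_mul _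
  have hRt : Tendsto (fun k => 1 - tb * ((m k : ℝ) / n k) + ε + K / (n k : ℝ)) atTop
      (𝓝 (1 - tb * (v φ0 + v φ1) + ε + 0)) :=
    ((tendsto_const_nhds.sub (hν.const_mul tb)).add_const ε).add (tendsto_const_nhds.div_atTop hnR)
  rw [add_zero] at hRt
  refine le_of_tendsto_of_tendsto hL hRt ?_
  filter_upwards [hnpos] with k hk
  have h1 := hK (m k) (X k) (hfree k)
  have h2 := TT_ge hc1 (hfree k)
  have hss : (SS (X k) (m k) / κ) ^ 2 = ((s k * SS (X k) (m k)) / κ) ^ 2 := by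
    rcases hs k with h | h <;> rw [h]
    · rw [one_mul]
    · rw [neg_one_mul, neg_div, neg_sq]
  rw [hss] at h1
  have e1 : (((m k : ℝ) / n k) ^ 2 - ((s k * SS (X k) (m k)) / n k / κ) ^ 2) / 4 =
      (((m k : ℝ) ^ 2 - ((s k * SS (X k) (m k)) / κ) ^ 2) / 4) / (n k : ℝ) ^ 2 := by
    field_simp
  rw [e1, Real.sqrt_div' _ (sq_nonneg _), Real.sqrt_sq hk.le, ← mul_div_assoc]
  rw [div_le_iff₀ hk]
  have e2 : (1 - tb * ((m k : ℝ) / n k) + ε + K / (n k : ℝ)) * n k =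
      n k - tb * m k + ε * n k + K := by
    field_simp
  rw [e2]
  have h4 : ε * (m k : ℝ) ≤ ε * n k := mul_le_mul_of_nonneg_left (h2.trans (hTT k)) hε.le
  linarith [hTT k]

end core

end

end Pool.Agent.Y267.RS
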