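import Pool.Agent.Y267.RS.Fin

set_option autoImplicit false

/-!
# Project RS: good points of the rotation set, convexity argument
-/

namespace Pool.Agent.Y267.RS

open Set Filter Topology MeasureTheory

noncomputable section

theorem le_Q (j : ℕ) : j ≤ Q j := by
  unfold Q
  have h1 : j < 3 ^ j := Nat.lt_pow_self (by norm_num)
  have h2 : 10 * 3 ^ j < 2 ^ (10 * 3 ^ j) := Nat.lt_two_pow_self
  omega

section core

variable {F0 : T1 × T1 → ℂ} {Φ : ℝ → SF F0 → SF F0}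

theorem good_points (hc1 : C1Stm) {κ : ℝ}
    (hG : ∀ (x : ℕ → SF F0) (n : ℕ → ℕ), Tendsto n atTop atTop →
      ∃ ω : ℕ → ℕ, StrictMono ω ∧ ∃ (v : C(SF F0, T1) → ℝ) (δ : C(SF F0, T1) → ℕ → ℝ),
        (∀ φ k, IsDisp Φ φ (x (ω k)) (n (ω k)) (δ φ k)) ∧
        ∀ φ, Tendsto (fun k => δ φ k / n (ω k)) atTop (𝓝 (v φ)))
    {φ0 φ1 : C(SF F0, T1)} {C0 : ℝ}
    (h3 : ∀ (x : T1) (m : ℕ) (s : ℝ), (s = 1 ∨ s = -1) → Free x m →
      ∃ (q : SF F0) (N : ℕ), TT x m ≤ N ∧ (N : ℝ) ≤ TT x m + C0 ∧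
        ∀ δ0 δ1 : ℝ, IsDisp Φ φ0 q N δ0 → IsDisp Φ φ1 q N δ1 →
          |δ0 - (m + s * SS x m) / 2| ≤ C0 ∧ |δ1 - (m - s * SS x m) / 2| ≤ C0)
    {C : ℝ} {m : ℕ}
    (hE2 : ∀ ε : ℝ, 0 < ε →
      ∃ j₀ : ℕ, ∀ j ≥ j₀, ∃ (x : T1) (s : ℝ), (s = 1 ∨ s = -1) ∧ Free x ((m + 1) * Q j) ∧
      TT x ((m + 1) * Q j) ≤ tb * ((m + 1) * Q j : ℝ) + (C * √(m : ℝ) + ε) * (Q j : ℝ) ∧
      |s * SS x ((m + 1) * Q j) - κ * ((m : ℝ) - 1) * (Q j : ℝ)| ≤ ε * (Q j : ℝ)) :
    ∃ v ∈ rotSet Φ, ∃ a : ℝ, 0 < a ∧ v φ0 + v φ1 = (m + 1) * a ∧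
      v φ0 - v φ1 = κ * (m - 1) * a ∧ 1 ≤ tb * ((m + 1) * a) + C * √(m : ℝ) * a := by
  have hε : ∀ k : ℕ, (0 : ℝ) < 1 / ((k : ℝ) + 1) := fun k => by positivity
  have hex : ∀ k : ℕ, ∃ (j : ℕ) (x : T1) (s : ℝ), k ≤ j ∧ (s = 1 ∨ s = -1) ∧
      Free x ((m + 1) * Q j) ∧
      TT x ((m + 1) * Q j) ≤ tb * ((m + 1) * Q j : ℝ) +
        (C * √(m : ℝ) + 1 / ((k : ℝ) + 1)) * (Q j : ℝ) ∧
      |s * SS x ((m + 1) * Q j) - κ * ((m : ℝ) - 1) * (Q j : ℝ)| ≤
        1 / ((k : ℝ) + 1) * (Q j : ℝ) := by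
    intro k
    obtain ⟨j₀, hj₀⟩ := hE2 _ (hε k)
    obtain ⟨x, s, h⟩ := hj₀ (max j₀ k) (le_max_left _ _)
    exact ⟨max j₀ k, x, s, le_max_right _ _, h⟩
  choose j x s hj hs hfree hTT hSS using hex
  have hex2 := fun k => h3 (x k) ((m + 1) * Q (j k)) (s k) (hs k) (hfree k)
  choose q N hN1 hN2 hd using hex2
  have hQN : ∀ k, (m + 1) * (Q (j k) : ℝ) ≤ N k := by
    intro k
    have := (TT_ge hc1 (hfree k)).trans (hN1 k)
    push_cast at this
    exact this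
  have hm0 : (0 : ℝ) ≤ m := Nat.cast_nonneg m
  have hQN' : ∀ k, (Q (j k) : ℝ) ≤ N k := by
    intro k
    have h1 := hQN k
    have h2 : (0 : ℝ) ≤ Q (j k) := Nat.cast_nonneg _
    nlinarith
  have hNt : Tendsto N atTop atTop := by
    apply tendsto_atTop_mono _ tendsto_id
    intro k
    have h1 : (k : ℝ) ≤ N k := by
      have h2 : k ≤ Q (j k) := (hj k).trans (le_Q _)
      have h3 : (k : ℝ) ≤ Q (j k) := by exact_mod_cast h2
      exact h3.trans (hQN' k)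
    exact_mod_cast h1
  obtain ⟨ω, hω, v, δ, hdisp, hlim⟩ := hG q N hNt
  have hωt := hω.tendsto_atTop
  have hNω : Tendsto (fun k => N (ω k)) atTop atTop := hNt.comp hωt
  refine ⟨v, ⟨fun k => q (ω k), fun k => N (ω k), δ, hNω, hdisp, hlim⟩, ?_⟩
  have hNR : Tendsto (fun k => (N (ω k) : ℝ)) atTop atTop := tendsto_natCast_atTop_atTop.comp hNω
  have hNpos : ∀ᶠ k in atTop, (0 : ℝ) < N (ω k) := hNR.eventually_gt_atTop 0
  have hC : Tendsto (fun k => 2 * C0 / (N (ω k) : ℝ)) atTop (𝓝 0) :=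
    tendsto_const_nhds.div_atTop hNR
  have hε0 : Tendsto (fun k => 1 / ((ω k : ℝ) + 1)) atTop (𝓝 0) := by
    have h1 : Tendsto (fun k : ℕ => 1 / ((k : ℝ) + 1)) atTop (𝓝 0) :=
      tendsto_one_div_add_atTop_nhds_zero_nat
    exact h1.comp hωt
  have hdd := fun k => hd (ω k) _ _ (hdisp φ0 k) (hdisp φ1 k)
  have hm1 : (0 : ℝ) < (m : ℝ) + 1 := by linarith
  -- `(m+1) Q/N → ν`
  have hν : Tendsto (fun k => ((m : ℝ) + 1) * Q (j (ω k)) / N (ω k)) atTop
      (𝓝 (v φ0 + v φ1)) := by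
    have h1 : Tendsto (fun k => δ φ0 k / N (ω k) + δ φ1 k / N (ω k)) atTop
        (𝓝 (v φ0 + v φ1)) := (hlim φ0).add (hlim φ1)
    have h2 : Tendsto (fun k => ((m : ℝ) + 1) * Q (j (ω k)) / N (ω k) -
        (δ φ0 k / N (ω k) + δ φ1 k / N (ω k))) atTop (𝓝 0) := by
      apply squeeze_zero_norm' _ hC
      filter_upwards [hNpos] with k hk
      rw [Real.norm_eq_abs, ← add_div, ← sub_div, abs_div, abs_of_pos hk]
      apply div_le_div_of_nonneg_right _ hk.le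
      have a0 := abs_le.1 (hdd k).1
      have a1 := abs_le.1 (hdd k).2
      push_cast at a0 a1
      rw [abs_le]
      constructor <;> linarith [a0.1, a0.2, a1.1, a1.2]
    have := h2.add h1
    simpa using this
  set a : ℝ := (v φ0 + v φ1) / (m + 1) with ha
  have hQ : Tendsto (fun k => (Q (j (ω k)) : ℝ) / N (ω k)) atTop (𝓝 a) := by
    have := hν.div_const ((m : ℝ) + 1)
    refine this.congr fun k => ?_
    field_simp
  have hμ : Tendsto (fun k => (s (ω k) * SS (x (ω k)) ((m + 1) * Q (j (ω k)))) / N (ω k)) atTop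
      (𝓝 (v φ0 - v φ1)) := by
    have h1 : Tendsto (fun k => δ φ0 k / N (ω k) - δ φ1 k / N (ω k)) atTop
        (𝓝 (v φ0 - v φ1)) := (hlim φ0).sub (hlim φ1)
    have h2 : Tendsto (fun k => (s (ω k) * SS (x (ω k)) ((m + 1) * Q (j (ω k)))) / N (ω k) -
        (δ φ0 k / N (ω k) - δ φ1 k / N (ω k))) atTop (𝓝 0) := by
      apply squeeze_zero_norm' _ hC
      filter_upwards [hNpos] with k hk
      rw [Real.norm_eq_abs, ← sub_div, ← sub_div, abs_div, abs_of_pos hk]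
      apply div_le_div_of_nonneg_right _ hk.le
      have a0 := abs_le.1 (hdd k).1
      have a1 := abs_le.1 (hdd k).2
      rw [abs_le]
      constructor <;> linarith [a0.1, a0.2, a1.1, a1.2]
    have := h2.add h1
    simpa using this
  have hμ2 : Tendsto (fun k => (s (ω k) * SS (x (ω k)) ((m + 1) * Q (j (ω k)))) / N (ω k)) atTop
      (𝓝 (κ * (m - 1) * a)) := by
    have h1 : Tendsto (fun k => κ * ((m : ℝ) - 1) * ((Q (j (ω k)) : ℝ) / N (ω k))) atTop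
        (𝓝 (κ * (m - 1) * a)) := hQ.const_mul _
    have h2 : Tendsto (fun k => (s (ω k) * SS (x (ω k)) ((m + 1) * Q (j (ω k)))) / N (ω k) -
        κ * ((m : ℝ) - 1) * ((Q (j (ω k)) : ℝ) / N (ω k))) atTop (𝓝 0) := by
      apply squeeze_zero_norm' _ hε0
      filter_upwards [hNpos] with k hk
      rw [Real.norm_eq_abs, ← mul_div_assoc, ← sub_div, abs_div, abs_of_pos hk, div_le_iff₀ hk]
      refine (hSS (ω k)).trans ?_
      exact mul_le_mul_of_nonneg_left (hQN' (ω k)) (hε (ω k)).le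
    have := h2.add h1
    simpa using this
  have h1le : 1 ≤ tb * ((m + 1) * a) + C * √(m : ℝ) * a := by
    have hR : Tendsto (fun k => tb * (((m : ℝ) + 1) * ((Q (j (ω k)) : ℝ) / N (ω k))) +
        (C * √(m : ℝ) + 1 / ((ω k : ℝ) + 1)) * ((Q (j (ω k)) : ℝ) / N (ω k)) +
        C0 / (N (ω k) : ℝ)) atTop
        (𝓝 (tb * ((m + 1) * a) + (C * √(m : ℝ) + 0) * a + 0)) :=
      (((hQ.const_mul _).const_mul tb).add ((hε0.const_add _).mul hQ)).add
        (tendsto_const_nhds.div_atTop hNR)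
    rw [add_zero, add_zero] at hR
    refine ge_of_tendsto hR ?_
    filter_upwards [hNpos] with k hk
    have h4 := (hN2 (ω k)).trans (add_le_add_left (hTT (ω k)) C0)
    have e : tb * (((m : ℝ) + 1) * ((Q (j (ω k)) : ℝ) / N (ω k))) +
        (C * √(m : ℝ) + 1 / ((ω k : ℝ) + 1)) * ((Q (j (ω k)) : ℝ) / N (ω k)) +
        C0 / (N (ω k) : ℝ) = (tb * ((m + 1) * Q (j (ω k)) : ℝ) +
        (C * √(m : ℝ) + 1 / ((ω k : ℝ) + 1)) * (Q (j (ω k)) : ℝ) + C0) / N (ω k) := by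
      field_simp
    rw [e, le_div_iff₀ hk, one_mul]
    exact h4
  have ha0 : 0 ≤ a := by
    refine ge_of_tendsto hQ (Eventually.of_forall fun k => ?_)
    positivity
  have hapos : 0 < a := by
    rcases eq_or_lt_of_le ha0 with h | h
    · rw [← h] at h1le
      norm_num at h1le
    · exact h
  refine ⟨a, hapos, ?_, tendsto_nhds_unique hμ hμ2, h1le⟩
  rw [ha]
  field_simp

/-- two good points with very different ratios are not in a common convex subset -/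
theorem no_convex {κ C t : ℝ} (hκ : 1 / 2 ≤ κ) (hC : 0 ≤ C) {M M' L : ℝ} (hM : 1 ≤ M) (hL : 32 * C < L)
    (hM' : M * L ≤ M') {a a' : ℝ} (ha : 0 < a) (ha' : 0 < a')
    (h1 : 1 ≤ t * ((M ^ 4 + 1) * a) + C * M ^ 2 * a)
    (h1' : 1 ≤ t * ((M' ^ 4 + 1) * a') + C * M' ^ 2 * a')
    (h2 : ∀ p p' : ℝ, 0 ≤ p → 0 ≤ p' → p + p' = 1 →
      1 / 16 * √(((p * ((M ^ 4 + 1) * a) + p' * ((M' ^ 4 + 1) * a')) ^ 2 -
        ((p * (κ * (M ^ 4 - 1) * a) + p' * (κ * (M' ^ 4 - 1) * a')) / κ) ^ 2) / 4) ≤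
      1 - t * (p * ((M ^ 4 + 1) * a) + p' * ((M' ^ 4 + 1) * a'))) : False := by
  have hκ0 : κ ≠ 0 := by intro h; rw [h] at hκ; norm_num at hκ
  have hL0 : 0 < L := by linarith
  have hM0 : 0 < M := by linarith
  have hM'0 : 0 < M' := lt_of_lt_of_le (by positivity) hM'
  -- weights
  set A : ℝ := a * M ^ 2 with hA
  set A' : ℝ := a' * M' ^ 2 with hA'
  have hA0 : 0 < A := by positivity
  have hA'0 : 0 < A' := by positivity
  set p : ℝ := A' / (A + A') with hp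
  set p' : ℝ := A / (A + A') with hp'
  set w : ℝ := A * A' / (A + A') with hw
  have hw0 : 0 < w := by positivity
  have hpp : p + p' = 1 := by rw [hp, hp']; field_simp; ring
  have hpA : p * A = w := by rw [hp, hw]; field_simp
  have hpA' : p' * A' = w := by rw [hp', hw]; field_simp
  have hp0 : 0 < p := by positivity
  have hp'0 : 0 < p' := by positivity
  have h3 := h2 p p' hp0.le hp'0.le hpp
  have e1 : ((p * ((M ^ 4 + 1) * a) + p' * ((M' ^ 4 + 1) * a')) ^ 2 -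
        ((p * (κ * (M ^ 4 - 1) * a) + p' * (κ * (M' ^ 4 - 1) * a')) / κ) ^ 2) / 4 =
      (p * a * M ^ 4 + p' * a' * M' ^ 4) * (p * a + p' * a') := by
    field_simp
    ring
  rw [e1] at h3
  have hub : 1 - t * (p * ((M ^ 4 + 1) * a) + p' * ((M' ^ 4 + 1) * a')) ≤ 2 * C * w := by
    have k1 := mul_le_mul_of_nonneg_left h1 hp0.le
    have k2 := mul_le_mul_of_nonneg_left h1' hp'0.le
    have k3 : p * (C * M ^ 2 * a) = C * w := by rw [← hpA, hA]; ring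
    have k4 : p' * (C * M' ^ 2 * a') = C * w := by rw [← hpA', hA']; ring
    nlinarith
  have hprod : (w * L) ^ 2 ≤ (p * a * M ^ 4 + p' * a' * M' ^ 4) * (p * a + p' * a') := by
    have k1 : w * M' ^ 2 = p' * a' * M' ^ 4 := by rw [← hpA', hA']; ring
    have k2 : p * a = w / M ^ 2 := by rw [← hpA, hA]; field_simp
    have k3 : 0 ≤ p * a * M ^ 4 := by positivity
    have k4 : 0 ≤ p' * a' := by positivity
    calc (w * L) ^ 2 ≤ (w * M' ^ 2) * (w / M ^ 2) := by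
          rw [mul_div_assoc', le_div_iff₀ (by positivity)]
          have : (M * L) ^ 2 ≤ M' ^ 2 := pow_le_pow_left₀ (by positivity) hM' 2
          nlinarith [sq_nonneg w, mul_le_mul_of_nonneg_left this (sq_nonneg w)]
      _ ≤ (p * a * M ^ 4 + p' * a' * M' ^ 4) * (p * a + p' * a') := by
          rw [k1, ← k2]
          have k5 : 0 ≤ p' * a' * M' ^ 4 := by positivity
          have k6 : 0 ≤ p * a := by positivity
          nlinarith [mul_nonneg k3 k6, mul_nonneg k3 k4, mul_nonneg k5 k4]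
  have hsqrt : w * L ≤ √((p * a * M ^ 4 + p' * a' * M' ^ 4) * (p * a + p' * a')) :=
    Real.le_sqrt_of_sq_le hprod
  have : 1 / 16 * (w * L) ≤ 2 * C * w := by linarith
  nlinarith

end core

end

end Pool.Agent.Y267.RS
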