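import Pool.Agent.Y267.RS.Fin2

set_option autoImplicit false

/-!
# Project RS: assembly
-/

namespace Pool.Agent.Y267.RS

open Set Filter Topology MeasureTheory

noncomputable section

theorem SF_isCompact {F0 : T1 × T1 → ℂ} (hF : HF F0) : IsCompact (SF F0) := by
  obtain ⟨B, hB⟩ := (isCompact_univ (X := T1 × T1)).exists_bound_of_continuousOn
    hF.cont.continuousOn
  have hB0 : 0 ≤ B := (norm_nonneg _).trans (hB (0, 0) (mem_univ _))
  apply IsCompact.of_isClosed_subset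
    ((isCompact_univ (X := T1 × T1)).prod (isCompact_closedBall (0 : ℂ) (B + 1)))
  · exact isClosed_eq (continuous_snd.pow 2) (hF.cont.comp continuous_fst)
  · intro p hp
    refine ⟨mem_univ _, ?_⟩
    rw [mem_closedBall_zero_iff]
    have hp' : p.2 ^ 2 = F0 p.1 := hp
    have h1 := hB p.1 (mem_univ _)
    rw [← hp', norm_pow] at h1
    nlinarith [norm_nonneg p.2]

/-- the main theorem on the double cover -/
theorem core (hc1 : C1Stm) (hD2 : D2Stm) (hE1 : E1Stm) (hE2 : E2Stm) (hT3 : T3Stm) (hG1 : G1Stm)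
    {F0 : T1 × T1 → ℂ} (hF : HF F0) {lam : ℝ → T1 × T1 → ℝ} {Φ : ℝ → SF F0 → SF F0}
    (hl : IsLam lam) (hΦ : IsFlow F0 lam Φ) : ¬ FinConv Φ := by
  rintro ⟨𝒞, hfin, hconv, hrot⟩
  have : CompactSpace (SF F0) := isCompact_iff_compactSpace.1 (SF_isCompact hF)
  obtain ⟨κ, hκ⟩ := hD2
  obtain ⟨φ0, φ1, C0, h31, h32⟩ := hT3 F0 hF lam Φ hl hΦ
  obtain ⟨C, hC⟩ := hE2 κ hκ
  have hG := hG1 (SF F0) Φ (hΦ.cont.continuousOn) (fun x => hΦ.zero x)
  set C' : ℝ := max C 0 with hC'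
  have hC'0 : 0 ≤ C' := le_max_right _ _
  obtain ⟨L, hL⟩ := exists_nat_gt (max (32 * C') 1)
  have hL1 : 32 * C' < (L : ℝ) := lt_of_le_of_lt (le_max_left _ _) hL
  have hL2 : 1 < (L : ℝ) := lt_of_le_of_lt (le_max_right _ _) hL
  have hex : ∀ i : ℕ, ∃ v ∈ rotSet Φ, ∃ a : ℝ, 0 < a ∧
      v φ0 + v φ1 = (((L : ℝ) ^ i) ^ 4 + 1) * a ∧
      v φ0 - v φ1 = κ * (((L : ℝ) ^ i) ^ 4 - 1) * a ∧
      1 ≤ tb * ((((L : ℝ) ^ i) ^ 4 + 1) * a) + C' * ((L : ℝ) ^ i) ^ 2 * a := by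
    intro i
    have hm1 : 1 ≤ (L ^ i) ^ 4 := by
      have : 0 < L := by
        have : (0 : ℝ) < L := by linarith
        exact_mod_cast this
      exact Nat.one_le_iff_ne_zero.2 (by positivity)
    obtain ⟨v, hv, a, ha, e1, e2, e3⟩ :=
      good_points (κ := κ) hc1 hG h32 (C := C) (m := (L ^ i) ^ 4) (hC _ hm1)
    push_cast at e1 e2 e3
    refine ⟨v, hv, a, ha, e1, e2, e3.trans ?_⟩
    have hs : √(((L : ℝ) ^ i) ^ 4) = ((L : ℝ) ^ i) ^ 2 := by
      rw [show ((L : ℝ) ^ i) ^ 4 = (((L : ℝ) ^ i) ^ 2) ^ 2 by ring]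
      exact Real.sqrt_sq (by positivity)
    rw [hs]
    have h5 : 0 ≤ ((L : ℝ) ^ i) ^ 2 * a := by positivity
    have h6 : C ≤ C' := le_max_left _ _
    nlinarith
  choose v hv a ha e1 e2 e3 using hex
  have hmem : ∀ i, ∃ A ∈ 𝒞, v i ∈ A := by
    intro i
    have := hv i
    rw [hrot] at this
    exact this
  choose A hA hvA using hmem
  have : Finite 𝒞 := hfin
  obtain ⟨i, i', hne, heq⟩ := Finite.exists_ne_map_eq_of_infinite (fun i : ℕ => (⟨A i, hA i⟩ : 𝒞))
  have heq' : A i = A i' := congrArg Subtype.val heq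
  -- wlog
  have main : ∀ i i' : ℕ, i < i' → A i = A i' → False := by
    intro i i' hlt heq
    have hLi : 1 ≤ (L : ℝ) ^ i := one_le_pow₀ hL2.le
    refine no_convex (M := (L : ℝ) ^ i) (M' := (L : ℝ) ^ i') (L := L) hκ.1 hC'0 hLi hL1 ?_
      (ha i) (ha i') (e3 i) (e3 i') ?_
    · rw [← pow_succ]
      exact pow_le_pow_right₀ hL2.le hlt
    · intro p p' hp hp' hpp
      have hin : p • v i + p' • v i' ∈ A i :=
        hconv (A i) (hA i) (hvA i) (by rw [heq]; exact hvA i') hp hp' hpp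
      have hin2 : p • v i + p' • v i' ∈ rotSet Φ := by
        rw [hrot]
        exact ⟨A i, hA i, hin⟩
      have h := upper_constraint hc1 hE1 hκ h31 hin2
      simp only [Pi.add_apply, Pi.smul_apply, smul_eq_mul] at h
      have k1 : p * v i φ0 + p' * v i' φ0 + (p * v i φ1 + p' * v i' φ1) =
          p * ((((L : ℝ) ^ i) ^ 4 + 1) * a i) + p' * ((((L : ℝ) ^ i') ^ 4 + 1) * a i') := by
        rw [← e1 i, ← e1 i']; ring
      have k2 : p * v i φ0 + p' * v i' φ0 - (p * v i φ1 + p' * v i' φ1) =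
          p * (κ * (((L : ℝ) ^ i) ^ 4 - 1) * a i) + p' * (κ * (((L : ℝ) ^ i') ^ 4 - 1) * a i') := by
        rw [← e2 i, ← e2 i']; ring
      rw [k1, k2] at h
      exact h
  rcases lt_or_gt_of_ne hne with h | h
  · exact main i i' h heq'
  · exact main i' i h heq'.symm

theorem final (hc1 : C1Stm) (hD2 : D2Stm) (hE1 : E1Stm) (hE2 : E2Stm)
    (hT1 : T1Stm) (hT2 : T2Stm) (hT3 : T3Stm) (hG1 : G1Stm) (hG2 : G2Stm) (hK1 : K1Stm) :
    FinalStm := by
  obtain ⟨F0, hF, ⟨h⟩⟩ := hK1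
  obtain ⟨lam, hl⟩ := hT1
  obtain ⟨Φ, hΦ⟩ := hT2 F0 hF lam hl
  have hcore := core hc1 hD2 hE1 hE2 hT3 hG1 hF hl hΦ
  refine ⟨fun t x => h.symm (Φ t (h x)), ?_, ?_, ?_, ?_⟩
  · apply Continuous.continuousOn
    exact h.symm.continuous.comp (hΦ.cont.comp
      (continuous_fst.prodMk (h.continuous.comp continuous_snd)))
  · intro x
    simp only
    rw [hΦ.zero, h.symm_apply_apply]
  · intro t _
    have hinv : ∀ (s : ℝ) (q : SF F0), Φ (-s) (Φ s q) = q := by
      intro s q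
      rw [← hΦ.add, add_neg_cancel, hΦ.zero]
    have hcont : ∀ s : ℝ, Continuous (Φ s) := fun s =>
      hΦ.cont.comp (continuous_const.prodMk continuous_id)
    let e : SF F0 ≃ₜ SF F0 :=
      { toFun := Φ t
        invFun := Φ (-t)
        left_inv := fun q => hinv t q
        right_inv := fun q => by
          have := hinv (-t) q
          rwa [neg_neg] at this
        continuous_toFun := hcont t
        continuous_invFun := hcont (-t) }
    exact ((h.trans e).trans h.symm).isHomeomorph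
  · intro hfc
    exact hcore (hG2 (SF F0) Mc h Φ hfc)

end

end Pool.Agent.Y267.RS
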