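import Pool.Agent.Y267.RS.Stm

set_option autoImplicit false

/-!
# Project RS, T3: the time of one lap
-/

namespace Pool.Agent.Y267.RS

open Set Filter Topology MeasureTheory

noncomputable section

/-- properties of the speed (job RS-T1) -/
def VVStm : Prop := Continuous vv ∧ (∀ z, 0 ≤ vv z ∧ vv z ≤ 1) ∧
  (∀ z, vv z = 0 ↔ z = (0,0) ∨ z = ((be : T1), 0)) ∧
  ∃ L : ℝ, ∀ z u u', |vv (mv z u) - vv (mv z u')| ≤ L * |u - u'|

theorem sp_pos {s : ℝ} (hs : 0 < s) : 0 < sp s := by
  unfold sp
  have : 0 < √(4 * s) := Real.sqrt_pos.2 (by linarith)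
  exact lt_min one_pos (by positivity)

theorem sp_large {s : ℝ} (hs : 1 / 4 ≤ s) : sp s = 1 := by
  unfold sp
  apply min_eq_left
  have h1 : (1 : ℝ) ≤ 4 * s := by linarith
  have h2 : (1 : ℝ) ≤ √(4 * s) := by
    rw [show (1 : ℝ) = √1 by simp]
    exact Real.sqrt_le_sqrt (by simpa using h1)
  nlinarith

theorem sp_small {s : ℝ} (hs0 : 0 < s) (hs : s ≤ 1 / 4) : sp s = (4 * s) * √(4 * s) := by
  unfold sp
  apply min_eq_right
  have h1 : 4 * s ≤ 1 := by linarith
  have h2 : √(4 * s) ≤ 1 := by
    rw [show (1 : ℝ) = √1 by simp]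
    exact Real.sqrt_le_sqrt (by simpa using h1)
  have h3 : 0 ≤ √(4 * s) := Real.sqrt_nonneg _
  nlinarith

theorem continuousOn_inv_sp : ContinuousOn (fun s => 1 / sp s) (Ioi 0) := by
  apply ContinuousOn.div continuousOn_const
  · unfold sp
    exact (continuous_const.min ((continuous_const.mul continuous_id).mul
      (Real.continuous_sqrt.comp (continuous_const.mul continuous_id)))).continuousOn
  · intro s hs
    exact (sp_pos hs).ne'

theorem integral_half_small {D : ℝ} (hD : 0 < D) (hD4 : D ≤ 1 / 4) :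
    ∫ u in (0 : ℝ)..(1 / 4 - D), 1 / sp (D + u) = 1 / (4 * √D) - 1 / 2 := by
  have h : ∀ u ∈ uIcc (0 : ℝ) (1 / 4 - D),
      HasDerivAt (fun u => -(1 / 2) * (√(4 * (D + u)))⁻¹) (1 / sp (D + u)) u := by
    intro u hu
    rw [uIcc_of_le (by linarith)] at hu
    have hpos : 0 < D + u := by linarith [hu.1]
    have h4 : 0 < 4 * (D + u) := by linarith
    have hs : 0 < √(4 * (D + u)) := Real.sqrt_pos.2 h4
    have h1 : HasDerivAt (fun u : ℝ => 4 * (D + u)) 4 u := by
      simpa using ((hasDerivAt_id u).const_add D).const_mul 4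
    have h2 := (h1.sqrt h4.ne').inv hs.ne'
    have h3 := h2.const_mul (-(1 / 2) : ℝ)
    refine h3.congr_deriv ?_
    rw [sp_small hpos (by linarith [hu.2])]
    have hsq : √(4 * (D + u)) ^ 2 = 4 * (D + u) := Real.sq_sqrt h4.le
    field_simp
    rw [hsq]
    ring
  have hc : IntervalIntegrable (fun u => 1 / sp (D + u)) volume 0 (1 / 4 - D) := by
    apply ContinuousOn.intervalIntegrable
    apply continuousOn_inv_sp.comp (by fun_prop)
    intro u hu
    rw [uIcc_of_le (by linarith)] at hu
    show 0 < D + u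
    linarith [hu.1]
  rw [intervalIntegral.integral_eq_sub_of_hasDerivAt h hc]
  have e1 : √(4 * (D + (1 / 4 - D))) = 1 := by
    rw [show 4 * (D + (1 / 4 - D)) = 1 by ring]; simp
  have e2 : √(4 * (D + 0)) = 2 * √D := by
    rw [add_zero, Real.sqrt_mul (by norm_num), show √(4 : ℝ) = 2 by
      rw [show (4 : ℝ) = 2 ^ 2 by norm_num]; exact Real.sqrt_sq (by norm_num)]
  rw [e1, e2]
  have hs : 0 < √D := Real.sqrt_pos.2 hD
  field_simp
  ring

theorem intInt_sp {D a b : ℝ} (hD : 0 < D) (ha : 0 ≤ a) (hb : 0 ≤ b) :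
    IntervalIntegrable (fun u => 1 / sp (D + u)) volume a b := by
  apply ContinuousOn.intervalIntegrable
  apply continuousOn_inv_sp.comp (by fun_prop)
  intro u hu
  have : 0 ≤ u := by
    rcases le_total a b with h | h
    · rw [uIcc_of_le h] at hu; linarith [hu.1]
    · rw [uIcc_of_ge h] at hu; linarith [hu.1]
  show 0 < D + u
  linarith

theorem integral_half {D : ℝ} (hD : 0 < D) :
    ∫ u in (0 : ℝ)..(1 / 2), 1 / sp (D + u) = r D / 2 := by
  unfold r
  split_ifs with h
  · have hsplit : ∫ u in (0 : ℝ)..(1 / 2), 1 / sp (D + u) =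
        (∫ u in (0 : ℝ)..(1 / 4 - D), 1 / sp (D + u)) + ∫ u in (1 / 4 - D)..(1 / 2), 1 / sp (D + u) :=
      (intervalIntegral.integral_add_adjacent_intervals
        (intInt_sp hD le_rfl (by linarith)) (intInt_sp hD (by linarith) (by norm_num))).symm
    rw [hsplit, integral_half_small hD h.le]
    have h2 : ∫ u in (1 / 4 - D)..(1 / 2), 1 / sp (D + u) = ∫ u in (1 / 4 - D)..(1 / 2), (1 : ℝ) := by
      apply intervalIntegral.integral_congr
      intro u hu
      rw [uIcc_of_le (by linarith)] at hu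
      simp only
      rw [sp_large (by linarith [hu.1])]
      norm_num
    rw [h2]
    simp only [intervalIntegral.integral_const, smul_eq_mul, mul_one]
    have hs : 0 < √D := Real.sqrt_pos.2 hD
    field_simp
    ring
  · push Not at h
    have h2 : ∫ u in (0 : ℝ)..(1 / 2), 1 / sp (D + u) = ∫ u in (0 : ℝ)..(1 / 2), (1 : ℝ) := by
      apply intervalIntegral.integral_congr
      intro u hu
      rw [uIcc_of_le (by norm_num)] at hu
      simp only
      rw [sp_large (by linarith [hu.1])]
      norm_num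
    rw [h2]
    simp

theorem integral_full {D : ℝ} (hD : 0 < D) :
    ∫ u in (-(1 / 2) : ℝ)..(1 / 2), 1 / sp (D + |u|) = r D := by
  have hi1 : IntervalIntegrable (fun u => 1 / sp (D + |u|)) volume (-(1 / 2)) 0 := by
    apply ContinuousOn.intervalIntegrable
    apply continuousOn_inv_sp.comp (by fun_prop)
    intro u _
    show 0 < D + |u|
    positivity
  have hi2 : IntervalIntegrable (fun u => 1 / sp (D + |u|)) volume 0 (1 / 2) := by
    apply ContinuousOn.intervalIntegrable
    apply continuousOn_inv_sp.comp (by fun_prop)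
    intro u _
    show 0 < D + |u|
    positivity
  rw [← intervalIntegral.integral_add_adjacent_intervals hi1 hi2]
  have h2 : ∫ u in (0 : ℝ)..(1 / 2), 1 / sp (D + |u|) = r D / 2 := by
    rw [← integral_half hD]
    apply intervalIntegral.integral_congr
    intro u hu
    rw [uIcc_of_le (by norm_num)] at hu
    simp only
    rw [abs_of_nonneg hu.1]
  have h1 : ∫ u in (-(1 / 2) : ℝ)..0, 1 / sp (D + |u|) = r D / 2 := by
    have := intervalIntegral.integral_comp_neg (a := 0) (b := 1 / 2) (fun u => 1 / sp (D + |u|))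
    simp only [abs_neg, neg_zero] at this
    rw [← this]
    exact h2
  rw [h1, h2]
  ring

theorem norm_coe_of_abs_le {u : ℝ} (hu : |u| ≤ 1 / 2) : ‖(u : T1)‖ = |u| := by
  rw [AddCircle.norm_eq]
  simp only [inv_one, one_mul, mul_one]
  rw [← abs_neg] at hu ⊢
  have : round u = 0 ∨ |u| = 1 / 2 := by
    rcases lt_or_eq_of_le hu with h | h
    · left
      rw [abs_neg, abs_lt] at h
      rw [round_eq_zero_iff]
      constructor <;> linarith
    · right; rw [abs_neg] at h; exact h
  rcases this with h | h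
  · rw [h]; simp
  · have h0 := abs_sub_round u
    have h1 : |u| - |(round u : ℝ)| ≤ |u - round u| := abs_sub_abs_le_abs_sub _ _
    have h2 : |(round u : ℝ)| ≤ 1 := by
      have : |(round u : ℝ)| ≤ |u| + |u - round u| := by
        have := abs_sub_abs_le_abs_sub (round u : ℝ) u
        rw [abs_sub_comm] at this
        linarith
      linarith
    rcases abs_cases u with hh | hh
    · have hu2 : u = 1 / 2 := by linarith
      subst hu2
      have : round (1 / 2 : ℝ) = 1 := by
        rw [round_eq]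
        norm_num
      rw [this]
      norm_num
    · have hu2 : u = -(1 / 2) := by linarith
      subst hu2
      have : round (-(1 / 2) : ℝ) = 0 := by
        rw [round_eq]
        norm_num
      rw [this]
      norm_num

theorem om_coe {u : ℝ} (hu : |u| ≤ 1 / 4) : om (u : T1) = u := by
  unfold om
  rw [← AddCircle.coe_add]
  rw [abs_le] at hu
  rw [norm_coe_of_abs_le (by rw [abs_le]; constructor <;> linarith [hu.1, hu.2]),
    abs_of_nonneg (by linarith [hu.1])]
  ring

theorem sq_line (p x : T1) {u : ℝ} (hu : |u| ≤ 1 / 2) :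
    sq p (mv (x, 0) u) = sp (‖x - p‖ + |u|) := by
  unfold sq mv
  simp only [zero_add]
  rw [norm_coe_of_abs_le hu]
  rcases le_total |u| (1 / 4) with h1 | h1
  · rw [om_coe h1]
    congr 2
    congr 1
    abel
  · rw [sp_large (by have := norm_nonneg (x + ((al * u : ℝ) : T1) - ((al * om (u : T1) : ℝ) : T1) - p); linarith),
      sp_large (by have := norm_nonneg (x - p); linarith)]

theorem inv_comb {a b : ℝ} (ha : 0 < a) (hb : 0 < b) (ha1 : a ≤ 1) :
    1 / (a * b / (a + b - a * b)) = 1 / a + 1 / b - 1 := by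
  have h : 0 < a + b - a * b := by nlinarith
  field_simp
  ring

theorem inv_vv_line (x : T1) {u : ℝ} (hu : |u| ≤ 1 / 2) (h0 : x ≠ 0) (h1 : x ≠ (be : T1)) :
    1 / vv (mv (x, 0) u) = 1 / sp (‖x‖ + |u|) + 1 / sp (‖x - (be : T1)‖ + |u|) - 1 := by
  unfold vv
  rw [sq_line 0 x hu, sq_line _ x hu, sub_zero]
  apply inv_comb
  · apply sp_pos
    have : 0 < ‖x‖ := norm_pos_iff.2 h0
    positivity
  · apply sp_pos
    have : 0 < ‖x - (be : T1)‖ := norm_pos_iff.2 (sub_ne_zero.2 h1)
    positivity
  · exact min_le_left _ _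

/-- the time of the lap centred at the seam point `x` -/
theorem lap_time (x : T1) (h0 : x ≠ 0) (h1 : x ≠ (be : T1)) :
    ∫ u in (-(1 / 2) : ℝ)..(1 / 2), 1 / vv (mv (x, 0) u) = R x := by
  have hx : 0 < ‖x‖ := norm_pos_iff.2 h0
  have hx1 : 0 < ‖x - (be : T1)‖ := norm_pos_iff.2 (sub_ne_zero.2 h1)
  have hi : ∀ D : ℝ, 0 < D → IntervalIntegrable (fun u => 1 / sp (D + |u|)) volume (-(1 / 2)) (1 / 2) := by
    intro D hD
    apply ContinuousOn.intervalIntegrable
    apply continuousOn_inv_sp.comp (by fun_prop)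
    intro u _
    show 0 < D + |u|
    positivity
  have : ∫ u in (-(1 / 2) : ℝ)..(1 / 2), 1 / vv (mv (x, 0) u) =
      ∫ u in (-(1 / 2) : ℝ)..(1 / 2), ((1 / sp (‖x‖ + |u|) + 1 / sp (‖x - (be : T1)‖ + |u|)) - 1) := by
    apply intervalIntegral.integral_congr
    intro u hu
    rw [uIcc_of_le (by norm_num)] at hu
    exact inv_vv_line x (abs_le.2 ⟨by linarith [hu.1], by linarith [hu.2]⟩) h0 h1
  rw [this, intervalIntegral.integral_sub ((hi _ hx).add (hi _ hx1)) intervalIntegrable_const,
    intervalIntegral.integral_add (hi _ hx) (hi _ hx1), integral_full hx, integral_full hx1]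
  unfold R
  simp
  norm_num

end

end Pool.Agent.Y267.RS
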