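import Pool.Agent.Y267.RS.T3a

set_option autoImplicit false

/-!
# Project RS, T3: base flow facts, time between heights
-/

namespace Pool.Agent.Y267.RS

open Set Filter Topology MeasureTheory

noncomputable section

theorem mv_mv (z : T1 × T1) (a b : ℝ) : mv (mv z a) b = mv z (a + b) := by
  unfold mv
  simp only [Prod.mk.injEq]
  constructor
  · rw [mul_add, AddCircle.coe_add, add_assoc]
  · rw [AddCircle.coe_add, add_assoc]

theorem mv_zero (z : T1 × T1) : mv z 0 = z := by
  unfold mv
  simp

theorem continuous_mv (z : T1 × T1) : Continuous (mv z) := by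
  unfold mv
  apply Continuous.prodMk
  · exact continuous_const.add ((AddCircle.continuous_mk' 1).comp (continuous_const.mul continuous_id))
  · exact continuous_const.add ((AddCircle.continuous_mk' 1).comp continuous_id)

section base

variable {lam : ℝ → T1 × T1 → ℝ}

theorem lam_fixed (hv : VVStm) (hl : IsLam lam) {z : T1 × T1} (hz : vv z = 0) (s : ℝ) :
    lam s z = 0 := by
  obtain ⟨L, hL⟩ := hv.2.2.2
  have hlip : LipschitzWith (Real.toNNReal |L|) (fun u : ℝ => vv (mv z u)) := by
    refine LipschitzWith.of_dist_le_mul fun a b => ?_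
    rw [Real.coe_toNNReal _ (abs_nonneg L), Real.dist_eq, Real.dist_eq]
    exact (hL z a b).trans (mul_le_mul_of_nonneg_right (le_abs_self L) (abs_nonneg _))
  have key : (fun s => lam s z) = fun _ => (0 : ℝ) := by
    refine ODE_solution_unique_univ (v := fun _ => fun u : ℝ => vv (mv z u)) (s := fun _ => univ)
      (K := Real.toNNReal |L|) (t₀ := 0) (fun _ => hlip.lipschitzOnWith)
      (fun t => ⟨hl.der t z, mem_univ _⟩) (fun t => ⟨?_, mem_univ _⟩) (hl.zero z)
    simp only [mv_zero, hz]
    exact hasDerivAt_const t (0 : ℝ)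
  exact congrFun key s

theorem lam_nonfixed (hv : VVStm) (hl : IsLam lam) {z : T1 × T1} (hz : vv z ≠ 0) (s : ℝ) :
    vv (mv z (lam s z)) ≠ 0 := by
  intro h
  have h1 := lam_fixed hv hl h (-s)
  have h2 := hl.add s (-s) z
  rw [add_neg_cancel, hl.zero, h1, add_zero] at h2
  rw [← h2, mv_zero] at h
  exact hz h

theorem lam_pos (hv : VVStm) (hl : IsLam lam) {z : T1 × T1} (hz : vv z ≠ 0) (s : ℝ) :
    0 < vv (mv z (lam s z)) :=
  lt_of_le_of_ne (hv.2.1 _).1 (lam_nonfixed hv hl hz s).symm

theorem lam_strictMono (hv : VVStm) (hl : IsLam lam) {z : T1 × T1} (hz : vv z ≠ 0) :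
    StrictMono (fun s => lam s z) :=
  strictMono_of_hasDerivAt_pos (fun s => hl.der s z) (fun s => lam_pos hv hl hz s)

theorem lam_cont (hl : IsLam lam) (z : T1 × T1) : Continuous (fun s => lam s z) :=
  hl.cont.comp (continuous_id.prodMk continuous_const)

theorem lam_le (hv : VVStm) (hl : IsLam lam) (z : T1 × T1) {a b : ℝ} (hab : a ≤ b) :
    lam b z - lam a z ≤ b - a := by
  have h1 : Antitone (fun s => lam s z - s) := by
    apply antitone_of_hasDerivAt_nonpos (f' := fun s => vv (mv z (lam s z)) - 1)
    · intro s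
      exact (hl.der s z).sub (hasDerivAt_id s)
    · intro s
      have := (hv.2.1 (mv z (lam s z))).2
      show vv (mv z (lam s z)) - 1 ≤ 0
      linarith
  have := h1 hab
  simp only at this
  linarith

/-- time between two heights -/
theorem time_eq (hv : VVStm) (hl : IsLam lam) {z : T1 × T1} (hz : vv z ≠ 0) (a b : ℝ) :
    ∫ u in (lam a z)..(lam b z), 1 / vv (mv z u) = b - a := by
  have h := intervalIntegral.integral_comp_mul_deriv' (a := a) (b := b)
    (f := fun s => lam s z) (f' := fun s => vv (mv z (lam s z))) (g := fun u => 1 / vv (mv z u))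
    (fun s _ => hl.der s z)
    ((hv.1.comp ((continuous_mv z).comp (lam_cont hl z))).continuousOn) ?_
  · rw [← h]
    have : ∀ s : ℝ, ((fun u => 1 / vv (mv z u)) ∘ fun s => lam s z) s * vv (mv z (lam s z)) = 1 := by
      intro s
      simp only [Function.comp_apply]
      have := lam_nonfixed hv hl hz s
      field_simp
    simp only [this]
    simp
  · apply ContinuousOn.div continuousOn_const
    · exact (hv.1.comp (continuous_mv z)).continuousOn
    · rintro u ⟨s, _, rfl⟩
      exact lam_nonfixed hv hl hz s

end base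

end

end Pool.Agent.Y267.RS
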