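import Pool.Agent.Y267.RS.T3b

set_option autoImplicit false

/-!
# Project RS, T3: the sheet sequence along an orbit
-/

namespace Pool.Agent.Y267.RS

open Set Filter Topology MeasureTheory

noncomputable section

theorem exists_rep (t : T1) : ∃ u : ℝ, 0 ≤ u ∧ u < 1 ∧ (u : T1) = t := by
  obtain ⟨u, hu, h⟩ := AddCircle.coe_image_Ico_eq (1 : ℝ) 0 ▸ (mem_univ t : t ∈ (univ : Set T1))
  exact ⟨u, hu.1, by simpa using hu.2, h⟩

theorem coe_int_T1 (k : ℤ) : ((k : ℝ) : T1) = 0 := by
  rw [AddCircle.coe_eq_zero_iff]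
  exact ⟨k, by simp⟩

theorem coe_nat_T1 (k : ℕ) : ((k : ℝ) : T1) = 0 := by
  have := coe_int_T1 (k : ℤ)
  simpa using this

theorem re_zero {F0 : T1 × T1 → ℂ} (hF : HF F0) {p : (T1 × T1) × ℂ} (hp : p ∈ SF F0)
    (h : p.2.re = 0) : p.1.2 = 0 := by
  obtain ⟨u, hu0, hu1, hu⟩ := exists_rep p.1.2
  have hp' : p.2 ^ 2 = F0 p.1 := hp
  have him : (F0 p.1).im = 0 := by
    rw [← hp', pow_two, Complex.mul_im, h]; ring
  have hre : (F0 p.1).re ≤ 0 := by
    rw [← hp', pow_two, Complex.mul_re, h]; nlinarith [sq_nonneg p.2.im]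
  have hpe : p.1 = (p.1.1, (u : T1)) := by rw [hu]
  rcases eq_or_lt_of_le hu0 with h0 | h0
  · rw [← hu, ← h0]; simp
  exfalso
  rcases lt_trichotomy u (1 / 2) with h2 | h2 | h2
  · have := hF.up p.1.1 u h0 h2
    rw [← hpe, him] at this
    exact lt_irrefl _ this
  · have := hF.top_re p.1.1
    rw [← h2, ← hpe] at this
    linarith
  · have := hF.down p.1.1 (1 - u) (by linarith) (by linarith)
    have e : ((-(1 - u) : ℝ) : T1) = (u : T1) := by
      rw [show -(1 - u) = u - 1 by ring, AddCircle.coe_sub, AddCircle.coe_period, sub_zero]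
    rw [e, ← hpe, him] at this
    exact lt_irrefl _ this

theorem sign_const {f : ℝ → ℝ} (hf : Continuous f) {a b : ℝ}
    (h : ∀ r ∈ uIcc a b, f r ≠ 0) : 0 < f a * f b := by
  by_contra hc
  have ha := h a left_mem_uIcc
  have hb := h b right_mem_uIcc
  have h0 : (0 : ℝ) ∈ uIcc (f a) (f b) := by
    rw [mem_uIcc]
    rcases lt_or_gt_of_ne ha with h1 | h1 <;> rcases lt_or_gt_of_ne hb with h2 | h2
    · exact absurd (mul_pos_of_neg_of_neg h1 h2) hc
    · left; exact ⟨h1.le, h2.le⟩
    · right; exact ⟨h2.le, h1.le⟩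
    · exact absurd (mul_pos h1 h2) hc
  obtain ⟨r, hr, hr0⟩ := intermediate_value_uIcc (hf.continuousOn (s := uIcc a b)) h0
  exact h r hr hr0

theorem sgn_trans {a b c : ℝ} (h1 : 0 < a * b) (h2 : 0 < b * c) : 0 < a * c := by
  by_contra hc
  push Not at hc
  have h3 : 0 < (a * c) * b ^ 2 := by
    have := mul_pos h1 h2
    linarith [show (a * b) * (b * c) = (a * c) * b ^ 2 by ring]
  have h4 : (a * c) * b ^ 2 ≤ 0 := mul_nonpos_of_nonpos_of_nonneg hc (sq_nonneg b)
  linarith

section orbit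

variable {F0 : T1 × T1 → ℂ} {lam : ℝ → T1 × T1 → ℝ} {Φ : ℝ → SF F0 → SF F0}

/-- height -/
def Ht (lam : ℝ → T1 × T1 → ℝ) (z : T1 × T1) (t0 : ℝ) (s : ℝ) : ℝ := t0 + lam s z

/-- seam point at height `k` -/
def XX (z : T1 × T1) (t0 : ℝ) (k : ℕ) : T1 := z.1 + ((al * (k - t0) : ℝ) : T1)

theorem mv_height {z : T1 × T1} {t0 : ℝ} (h0 : (t0 : T1) = z.2) (k : ℕ) (u : ℝ) :
    mv z (k - t0 + u) = mv (XX z t0 k, 0) u := by
  unfold mv XX
  simp only [Prod.mk.injEq]
  constructor
  · rw [mul_add, AddCircle.coe_add, add_assoc]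
  · rw [← h0, ← AddCircle.coe_add, show t0 + ((k : ℝ) - t0 + u) = k + u by ring, AddCircle.coe_add,
      coe_nat_T1]

theorem XX_rot (z : T1 × T1) (t0 : ℝ) (k j : ℕ) : rot (XX z t0 k) j = XX z t0 (k + j) := by
  unfold rot XX
  rw [add_assoc, ← AddCircle.coe_add]
  congr 2
  push_cast
  ring

theorem base_eq (hΦ : IsFlow F0 lam Φ) (q : SF F0) {t0 : ℝ} (h0 : (t0 : T1) = q.1.1.2) (k : ℕ)
    {u s : ℝ} (hs : Ht lam q.1.1 t0 s = k + u) : (Φ s q).1.1 = mv (XX q.1.1 t0 k, 0) u := by
  rw [hΦ.base, ← mv_height h0]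
  congr 1
  unfold Ht at hs
  linarith

theorem Wsq (q : SF F0) (s : ℝ) : (Φ s q).1.2 ^ 2 = F0 (Φ s q).1.1 := (Φ s q).2

theorem W_cont (hΦ : IsFlow F0 lam Φ) (q : SF F0) : Continuous (fun s => (Φ s q).1.2) :=
  continuous_snd.comp (continuous_subtype_val.comp
    (hΦ.cont.comp (continuous_id.prodMk continuous_const)))

theorem re_ne (hF : HF F0) (hΦ : IsFlow F0 lam Φ) (q : SF F0) {t0 : ℝ}
    (h0 : (t0 : T1) = q.1.1.2) {k : ℕ} {s : ℝ} (h1 : (k : ℝ) < Ht lam q.1.1 t0 s)
    (h2 : Ht lam q.1.1 t0 s < k + 1) : (Φ s q).1.2.re ≠ 0 := by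
  intro h
  have h3 := re_zero hF (Φ s q).2 h
  rw [base_eq hΦ q h0 k (u := Ht lam q.1.1 t0 s - k) (by ring)] at h3
  unfold mv at h3
  simp only [zero_add] at h3
  rw [AddCircle.coe_eq_zero_iff] at h3
  obtain ⟨n, hn⟩ := h3
  rw [zsmul_eq_mul, mul_one] at hn
  have a1 : (0 : ℝ) < n := by rw [hn]; linarith
  have a2 : (n : ℝ) < 1 := by rw [hn]; linarith
  have b1 : 0 < n := by exact_mod_cast a1
  have b2 : n < 1 := by exact_mod_cast a2
  omega

theorem seam_cases (hb : 0 < be ∧ be < 1 / 1000) (hv : VVStm) (hF : HF F0) {x : T1}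
    (hx : vv (x, 0) ≠ 0) :
    (x ∈ arc 0 be ∧ (F0 (x, 0)).re < 0) ∨ (x ∉ arc 0 be ∧ 0 < (F0 (x, 0)).re) := by
  obtain ⟨u, hu0, hu1, hu⟩ := exists_rep x
  have hne := mt (hv.2.2.1 (x, 0)).2 hx
  push Not at hne
  have hx0 : x ≠ 0 := fun h => hne.1 (by rw [h])
  have hxb : x ≠ (be : T1) := fun h => hne.2 (by rw [h])
  have hu0' : 0 < u := by
    rcases eq_or_lt_of_le hu0 with h | h
    · exact absurd (by rw [← hu, ← h]; simp) hx0
    · exact h
  rcases lt_trichotomy u be with h | h | h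
  · left
    refine ⟨⟨u, ⟨hu0, h⟩, by rw [zero_add, hu]⟩, ?_⟩
    rw [← hu]; exact hF.seam_neg u hu0' h
  · exact absurd (by rw [← hu, h]) hxb
  · right
    refine ⟨?_, by rw [← hu]; exact hF.seam_pos u h hu1⟩
    rintro ⟨y, hy, hxy⟩
    rw [zero_add, ← hu] at hxy
    have := (AddCircle.coe_eq_coe_iff_of_mem_Ico (p := (1 : ℝ)) (a := 0)
      (x := u) (y := y) ⟨hu0, by linarith⟩ ⟨hy.1, by linarith [hy.2, hb.2]⟩).1 hxy
    rw [this] at h
    linarith [hy.2]

/-- the sheet sequence -/
theorem sheets (hb : 0 < be ∧ be < 1 / 1000) (hv : VVStm) (hF : HF F0) (hl : IsLam lam)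
    (hΦ : IsFlow F0 lam Φ) (q : SF F0) (hq : vv q.1.1 ≠ 0) {t0 : ℝ} (ht1 : t0 < 1)
    (h0 : (t0 : T1) = q.1.1.2) :
    ∃ σ : ℝ, (σ = 1 ∨ σ = -1) ∧ ∀ (k : ℕ) (s : ℝ), (k : ℝ) < Ht lam q.1.1 t0 s →
      Ht lam q.1.1 t0 s < k + 1 →
      0 < σ * (-1) ^ visits (arc 0 be) (XX q.1.1 t0 1) k * (Φ s q).1.2.re := by
  set z := q.1.1 with hz
  have hHm : StrictMono (Ht lam z t0) := fun a b hab => by
    unfold Ht
    have := lam_strictMono hv hl hq hab
    simp only at this
    linarith
  have hHc : Continuous (Ht lam z t0) := continuous_const.add (lam_cont hl z)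
  have hWre : Continuous (fun s => (Φ s q).1.2.re) := Complex.continuous_re.comp (W_cont hΦ q)
  have hWim : Continuous (fun s => (Φ s q).1.2.im) := Complex.continuous_im.comp (W_cont hΦ q)
  -- same sign inside one lap
  have hsame : ∀ (k : ℕ) (s s' : ℝ), (k : ℝ) < Ht lam z t0 s → Ht lam z t0 s < k + 1 →
      (k : ℝ) < Ht lam z t0 s' → Ht lam z t0 s' < k + 1 →
      0 < (Φ s q).1.2.re * (Φ s' q).1.2.re := by
    intro k s s' h1 h2 h3 h4
    apply sign_const hWre
    intro r hr
    have hr1 : (k : ℝ) < Ht lam z t0 r := by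
      rcases le_total s s' with h | h
      · rw [uIcc_of_le h] at hr; exact h1.trans_le (hHm.monotone hr.1)
      · rw [uIcc_of_ge h] at hr; exact h3.trans_le (hHm.monotone hr.1)
    have hr2 : Ht lam z t0 r < k + 1 := by
      rcases le_total s s' with h | h
      · rw [uIcc_of_le h] at hr; exact (hHm.monotone hr.2).trans_lt h4
      · rw [uIcc_of_ge h] at hr; exact (hHm.monotone hr.2).trans_lt h2
    exact re_ne hF hΦ q h0 hr1 hr2
  -- initial sign
  obtain ⟨σ, hσ, hσ0⟩ : ∃ σ : ℝ, (σ = 1 ∨ σ = -1) ∧ ∀ s : ℝ, (0 : ℝ) < Ht lam z t0 s →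
      Ht lam z t0 s < 1 → 0 < σ * (Φ s q).1.2.re := by
    by_cases hex : ∃ s : ℝ, (0 : ℝ) < Ht lam z t0 s ∧ Ht lam z t0 s < 1
    · obtain ⟨s, hs1, hs2⟩ := hex
      have hne := re_ne hF hΦ q h0 (k := 0) (s := s) (by simpa using hs1) (by simpa using hs2)
      rcases lt_or_gt_of_ne hne with h | h
      · refine ⟨-1, Or.inr rfl, fun s' h1 h2 => ?_⟩
        have := hsame 0 s s' (by simpa using hs1) (by simpa using hs2) (by simpa using h1)
          (by simpa using h2)
        nlinarith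
      · refine ⟨1, Or.inl rfl, fun s' h1 h2 => ?_⟩
        have := hsame 0 s s' (by simpa using hs1) (by simpa using hs2) (by simpa using h1)
          (by simpa using h2)
        nlinarith
    · push Not at hex
      exact ⟨1, Or.inl rfl, fun s h1 h2 => absurd h2 (not_lt.2 (hex s h1))⟩
  refine ⟨σ, hσ, ?_⟩
  intro k
  induction k with
  | zero =>
    intro s h1 h2
    have h3 : visits (arc 0 be) (XX z t0 1) 0 = 0 := by simp [visits]
    rw [h3, pow_zero, mul_one]
    exact hσ0 s (by simpa using h1) (by simpa using h2)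
  | succ k ih =>
    intro s h1 h2
    -- crossing time
    have hH0 : Ht lam z t0 0 = t0 := by unfold Ht; rw [hl.zero, add_zero]
    have hk0 : (0 : ℝ) ≤ k := Nat.cast_nonneg k
    push_cast at h1 h2
    have hs0 : 0 < s := by
      by_contra hc
      push Not at hc
      have := hHm.monotone hc
      rw [hH0] at this
      linarith
    obtain ⟨sc, ⟨hsc0, hsc1⟩, hsc⟩ : ∃ sc ∈ Icc 0 s, Ht lam z t0 sc = (k : ℝ) + 1 := by
      apply intermediate_value_Icc hs0.le hHc.continuousOn
      rw [hH0]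
      exact ⟨by linarith, h1.le⟩
    have hscs : sc < s := by
      rcases eq_or_lt_of_le hsc1 with h | h
      · rw [h] at hsc; linarith
      · exact h
    have hbase : (Φ sc q).1.1 = (XX z t0 (k + 1), 0) := by
      have := base_eq hΦ q h0 (k + 1) (u := 0) (s := sc) (by rw [← hz, hsc]; push_cast; ring)
      rw [this, mv_zero]
    have hnf : vv (XX z t0 (k + 1), 0) ≠ 0 := by
      rw [← hbase, hΦ.base]
      exact lam_nonfixed hv hl hq sc
    have hvis : visits (arc 0 be) (XX z t0 1) (k + 1) =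
        visits (arc 0 be) (XX z t0 1) k + ind (arc 0 be) (XX z t0 (k + 1)) := by
      unfold visits
      rw [Finset.sum_range_succ, XX_rot, add_comm 1 k]
    have hWsc := Wsq (Φ := Φ) q sc
    rw [hbase] at hWsc
    have him0 : (F0 (XX z t0 (k + 1), 0)).im = 0 := hF.seam_im _
    have e1 : 2 * ((Φ sc q).1.2.re * (Φ sc q).1.2.im) = 0 := by
      rw [← hWsc, pow_two, Complex.mul_im] at him0
      linarith
    have e2 : (Φ sc q).1.2.re ^ 2 - (Φ sc q).1.2.im ^ 2 = (F0 (XX z t0 (k + 1), 0)).re := by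
      rw [← hWsc, pow_two (Φ sc q).1.2, Complex.mul_re]
      ring
    -- nearby times
    have hnear : ∀ᶠ s' in 𝓝 sc, (k : ℝ) + 1 / 2 < Ht lam z t0 s' ∧
        Ht lam z t0 s' < (k : ℝ) + 1 + 1 / 2 := by
      have := hHc.tendsto sc
      rw [hsc] at this
      exact (this.eventually (lt_mem_nhds (by linarith))).and
        (this.eventually (gt_mem_nhds (by linarith)))
    rcases seam_cases hb hv hF hnf with ⟨hin, hneg⟩ | ⟨hout, hpos⟩
    · -- flip
      have hind : ind (arc 0 be) (XX z t0 (k + 1)) = 1 := by unfold ind; rw [if_pos hin]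
      rw [hvis, hind, pow_succ]
      have hre0 : (Φ sc q).1.2.re = 0 := by
        rcases mul_eq_zero.1 (by linarith : (Φ sc q).1.2.re * (Φ sc q).1.2.im = 0) with h | h
        · exact h
        · rw [h] at e2
          nlinarith [sq_nonneg (Φ sc q).1.2.re]
      have him1 : (Φ sc q).1.2.im ≠ 0 := by
        intro h
        rw [h, hre0] at e2
        linarith
      set b := (Φ sc q).1.2.im with hbdef
      have hnear2 : ∀ᶠ s' in 𝓝 sc, 0 < (Φ s' q).1.2.im * b := by
        have h3 : Continuous (fun s' => (Φ s' q).1.2.im * b) := hWim.mul continuous_const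
        have h4 : 0 < (Φ sc q).1.2.im * b := by rw [← hbdef]; exact mul_self_pos.2 him1
        exact (h3.tendsto sc).eventually (lt_mem_nhds h4)
      obtain ⟨ε, hε, hball⟩ := Metric.eventually_nhds_iff.1 (hnear.and hnear2)
      have key : ∀ s', |s' - sc| < ε →
          ((k : ℝ) + 1 / 2 < Ht lam z t0 s' ∧ Ht lam z t0 s' < (k : ℝ) + 1 + 1 / 2) ∧
          0 < (Φ s' q).1.2.im * b := fun s' h => hball (by rw [Real.dist_eq]; exact h)
      -- times before and after
      have hs1 := key (sc - ε / 2) (by rw [abs_lt]; constructor <;> linarith)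
      have hs2 := key (sc + ε / 2) (by rw [abs_lt]; constructor <;> linarith)
      have hl1 : Ht lam z t0 (sc - ε / 2) < k + 1 := by
        rw [← hsc]; exact hHm (by linarith)
      have hl2 : (k : ℝ) + 1 < Ht lam z t0 (sc + ε / 2) := by
        rw [← hsc]; exact hHm (by linarith)
      have him : ∀ s' : ℝ, (F0 (Φ s' q).1.1).im = 2 * ((Φ s' q).1.2.re * (Φ s' q).1.2.im) := by
        intro s'
        rw [← Wsq q s', pow_two, Complex.mul_im]; ring
      have hm1 : (F0 (Φ (sc - ε / 2) q).1.1).im < 0 := by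
        rw [base_eq hΦ q h0 (k + 1) (u := -((k : ℝ) + 1 - Ht lam z t0 (sc - ε / 2)))
          (by push_cast; ring)]
        unfold mv
        simp only [zero_add]
        exact hF.down _ _ (by linarith) (by linarith [hs1.1.1])
      have hm2 : 0 < (F0 (Φ (sc + ε / 2) q).1.1).im := by
        rw [base_eq hΦ q h0 (k + 1) (u := Ht lam z t0 (sc + ε / 2) - ((k : ℝ) + 1))
          (by push_cast; ring)]
        unfold mv
        simp only [zero_add]
        exact hF.up _ _ (by linarith) (by linarith [hs2.1.2])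
      rw [him] at hm1 hm2
      have ihs := ih (sc - ε / 2) (by linarith [hs1.1.1]) hl1
      have hsm := hsame (k + 1) (sc + ε / 2) s (by push_cast; exact hl2)
        (by push_cast; linarith [hs2.1.2]) (by push_cast; exact h1) (by push_cast; linarith)
      set A := σ * (-1) ^ visits (arc 0 be) (XX z t0 1) k with hA
      have r1 : 0 < -(Φ (sc - ε / 2) q).1.2.re * b := by
        apply sgn_trans (b := (Φ (sc - ε / 2) q).1.2.im) _ hs1.2
        linarith
      have r2 : 0 < b * (Φ (sc + ε / 2) q).1.2.re := by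
        apply sgn_trans (b := (Φ (sc + ε / 2) q).1.2.im)
        · linarith [hs2.2]
        · linarith
      have r3 : 0 < -A * b := by
        apply sgn_trans (b := -(Φ (sc - ε / 2) q).1.2.re) _ r1
        linarith
      have r4 : 0 < -A * (Φ s q).1.2.re := sgn_trans (sgn_trans r3 r2) hsm
      have h8 : σ * ((-1) ^ visits (arc 0 be) (XX z t0 1) k * -1) * (Φ s q).1.2.re =
        -A * (Φ s q).1.2.re := by rw [hA]; ring
      rw [h8]
      exact r4
    · -- no flip
      have hind : ind (arc 0 be) (XX z t0 (k + 1)) = 0 := by unfold ind; rw [if_neg hout]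
      rw [hvis, hind, add_zero]
      have hre1 : (Φ sc q).1.2.re ≠ 0 := by
        intro h
        rw [h] at e2
        nlinarith [sq_nonneg (Φ sc q).1.2.im]
      obtain ⟨ε, hε, hball⟩ := Metric.eventually_nhds_iff.1 hnear
      have hs1 := hball (y := sc - ε / 2) (by rw [Real.dist_eq, abs_lt]; constructor <;> linarith)
      have hl1 : Ht lam z t0 (sc - ε / 2) < k + 1 := by
        rw [← hsc]; exact hHm (by linarith)
      have ihs := ih (sc - ε / 2) (by linarith [hs1.1]) hl1
      have hsm : 0 < (Φ (sc - ε / 2) q).1.2.re * (Φ s q).1.2.re := by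
        apply sign_const hWre
        intro r hr
        rw [uIcc_of_le (by linarith)] at hr
        rcases lt_trichotomy r sc with h | h | h
        · apply re_ne hF hΦ q h0 (k := k)
          · have := hHm.monotone hr.1
            linarith [hs1.1]
          · have := hHm h
            linarith
        · rw [h]; exact hre1
        · apply re_ne hF hΦ q h0 (k := k + 1)
          · have := hHm h
            push_cast
            linarith
          · have := hHm.monotone hr.2
            push_cast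
            linarith
      set A := σ * (-1) ^ visits (arc 0 be) (XX z t0 1) k with hA
      exact sgn_trans ihs hsm

end orbit

end

end Pool.Agent.Y267.RS
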