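import Pool.Agent.Y267.RS.T3c

set_option autoImplicit false

/-!
# Project RS, T3: displacements and times of orbits
-/

namespace Pool.Agent.Y267.RS

open Set Filter Topology MeasureTheory

noncomputable section

/-! ## the piecewise linear interpolation -/

/-- clamp to `[0,1]` -/
def cl (y : ℝ) : ℝ := max 0 (min 1 y)

theorem cl_mono {a b : ℝ} (h : a ≤ b) : cl a ≤ cl b := max_le_max le_rfl (min_le_min le_rfl h)

theorem sum_cl (M : ℕ) (u : ℝ) : ∑ k ∈ Finset.range M, cl (u - k) = max 0 (min (M : ℝ) u) := by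
  induction M with
  | zero =>
    simp only [Finset.range_zero, Finset.sum_empty, Nat.cast_zero]
    exact (max_eq_left (min_le_left 0 u)).symm
  | succ M ih =>
    rw [Finset.sum_range_succ, ih]
    unfold cl
    push_cast
    have hM : (0 : ℝ) ≤ M := Nat.cast_nonneg M
    rcases le_total u M with h | h
    · rw [min_eq_right h, min_eq_right (by linarith : u ≤ (M : ℝ) + 1),
        min_eq_right (by linarith : u - M ≤ 1), max_eq_left (by linarith : u - M ≤ 0), add_zero]
    · rw [min_eq_left h, max_eq_right hM]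
      rcases le_total u ((M : ℝ) + 1) with h2 | h2
      · rw [min_eq_right h2, min_eq_right (by linarith : u - M ≤ 1),
          max_eq_right (by linarith : 0 ≤ u - M), max_eq_right (by linarith : 0 ≤ u)]
        ring
      · rw [min_eq_left h2, min_eq_left (by linarith : 1 ≤ u - M),
          max_eq_right (by norm_num : (0 : ℝ) ≤ 1), max_eq_right (by linarith)]

/-- interpolation of the partial sums of `c` -/
def ZZ (c : ℕ → ℝ) (M : ℕ) (u : ℝ) : ℝ := ∑ k ∈ Finset.range M, c k * cl (u - k)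

theorem ZZ_lip {c : ℕ → ℝ} (h0 : ∀ k, 0 ≤ c k) (h1 : ∀ k, c k ≤ 1) (M : ℕ) {u v : ℝ}
    (huv : u ≤ v) : 0 ≤ ZZ c M v - ZZ c M u ∧ ZZ c M v - ZZ c M u ≤ v - u := by
  unfold ZZ
  rw [← Finset.sum_sub_distrib]
  constructor
  · apply Finset.sum_nonneg
    intro k _
    have := cl_mono (sub_le_sub_right huv (k : ℝ))
    nlinarith [h0 k]
  · calc ∑ k ∈ Finset.range M, (c k * cl (v - k) - c k * cl (u - k)) ≤
        ∑ k ∈ Finset.range M, (cl (v - k) - cl (u - k)) := by
          apply Finset.sum_le_sum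
          intro k _
          have := cl_mono (sub_le_sub_right huv (k : ℝ))
          nlinarith [h1 k]
      _ = max 0 (min (M : ℝ) v) - max 0 (min (M : ℝ) u) := by
          rw [Finset.sum_sub_distrib, sum_cl, sum_cl]
      _ ≤ v - u := by
          rcases le_total (M : ℝ) v with h | h <;> rcases le_total (M : ℝ) u with h' | h'
          · rw [min_eq_left h, min_eq_left h']; linarith
          · rw [min_eq_left h, min_eq_right h']
            rcases max_cases (0 : ℝ) M with hh | hh <;> rcases max_cases (0 : ℝ) u with hh' | hh' <;>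
              linarith [Nat.cast_nonneg (α := ℝ) M]
          · rw [min_eq_right h, min_eq_left h']
            rcases max_cases (0 : ℝ) M with hh | hh <;> rcases max_cases (0 : ℝ) v with hh' | hh' <;>
              linarith [Nat.cast_nonneg (α := ℝ) M]
          · rw [min_eq_right h, min_eq_right h']
            rcases max_cases (0 : ℝ) v with hh | hh <;> rcases max_cases (0 : ℝ) u with hh' | hh' <;>
              linarith [Nat.cast_nonneg (α := ℝ) M]

theorem ZZ_abs {c : ℕ → ℝ} (h0 : ∀ k, 0 ≤ c k) (h1 : ∀ k, c k ≤ 1) (M : ℕ) (u v : ℝ) :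
    |ZZ c M v - ZZ c M u| ≤ |v - u| := by
  rcases le_total u v with h | h
  · have := ZZ_lip h0 h1 M h
    rw [abs_of_nonneg this.1, abs_of_nonneg (by linarith)]
    exact this.2
  · have := ZZ_lip h0 h1 M h
    rw [abs_sub_comm, abs_sub_comm v u, abs_of_nonneg this.1, abs_of_nonneg (by linarith)]
    exact this.2

theorem ZZ_between (c : ℕ → ℝ) {M k : ℕ} (hk : k < M) {u : ℝ} (h1 : (k : ℝ) ≤ u) (h2 : u ≤ k + 1) :
    ZZ c M u = (∑ j ∈ Finset.range k, c j) + c k * (u - k) := by
  unfold ZZ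
  have hsplit : Finset.range M = Finset.range (k + 1) ∪ Finset.Ico (k + 1) M := by
    ext a
    simp only [Finset.mem_range, Finset.mem_union, Finset.mem_Ico]
    omega
  have hdisj : Disjoint (Finset.range (k + 1)) (Finset.Ico (k + 1) M) := by
    rw [Finset.disjoint_left]
    intro a ha hb
    simp only [Finset.mem_range, Finset.mem_Ico] at ha hb
    omega
  rw [hsplit, Finset.sum_union hdisj, Finset.sum_range_succ]
  have e1 : ∑ j ∈ Finset.range k, c j * cl (u - j) = ∑ j ∈ Finset.range k, c j := by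
    apply Finset.sum_congr rfl
    intro j hj
    have hj' : (j : ℝ) + 1 ≤ k := by exact_mod_cast Finset.mem_range.1 hj
    have : cl (u - j) = 1 := by
      unfold cl
      rw [min_eq_left (by linarith), max_eq_right (by norm_num)]
    rw [this, mul_one]
  have e2 : ∑ j ∈ Finset.Ico (k + 1) M, c j * cl (u - j) = 0 := by
    apply Finset.sum_eq_zero
    intro j hj
    have hj' : (k : ℝ) + 1 ≤ j := by exact_mod_cast (Finset.mem_Ico.1 hj).1
    have : cl (u - j) = 0 := by
      unfold cl
      rw [min_eq_right (by linarith), max_eq_left (by linarith)]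
    rw [this, mul_zero]
  have e3 : cl (u - k) = u - k := by
    unfold cl
    rw [min_eq_right (by linarith), max_eq_right (by linarith)]
  rw [e1, e2, e3, add_zero]

theorem ZZ_cont (c : ℕ → ℝ) (M : ℕ) : Continuous (ZZ c M) := by
  unfold ZZ cl
  fun_prop

/-! ## integer-valued continuous functions -/

theorem int_const {f : ℝ → ℝ} {N : ℝ} (hN : 0 ≤ N) (hf : ContinuousOn f (Icc 0 N))
    (h : ∀ s ∈ Icc 0 N, ((f s : ℝ) : T1) = 0) : f N = f 0 := by
  have hint : ∀ s ∈ Icc 0 N, ∃ n : ℤ, f s = n := by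
    intro s hs
    have := h s hs
    rw [AddCircle.coe_eq_zero_iff] at this
    obtain ⟨n, hn⟩ := this
    exact ⟨n, by rw [← hn]; simp⟩
  obtain ⟨a, ha⟩ := hint 0 ⟨le_rfl, hN⟩
  obtain ⟨b, hb⟩ := hint N ⟨hN, le_rfl⟩
  by_contra hne
  have hab : a ≠ b := by
    rintro rfl
    exact hne (by rw [ha, hb])
  rcases lt_or_gt_of_ne hab with h1 | h1
  · have h2 : (a : ℝ) + 1 ≤ b := by exact_mod_cast h1
    obtain ⟨s, hs, hs1⟩ := intermediate_value_Icc hN hf
      (show (a : ℝ) + 1 / 2 ∈ Icc (f 0) (f N) by rw [ha, hb]; constructor <;> linarith)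
    obtain ⟨n, hn⟩ := hint s hs
    rw [hn] at hs1
    have h3 : (a : ℝ) < n := by linarith
    have h4 : (n : ℝ) < a + 1 := by linarith
    have h3' : a < n := by exact_mod_cast h3
    have h4' : n < a + 1 := by exact_mod_cast h4
    omega
  · have h2 : (b : ℝ) + 1 ≤ a := by exact_mod_cast h1
    obtain ⟨s, hs, hs1⟩ := intermediate_value_Icc' hN hf
      (show (b : ℝ) + 1 / 2 ∈ Icc (f N) (f 0) by rw [ha, hb]; constructor <;> linarith)
    obtain ⟨n, hn⟩ := hint s hs
    rw [hn] at hs1
    have h3 : (b : ℝ) < n := by linarith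
    have h4 : (n : ℝ) < b + 1 := by linarith
    have h3' : b < n := by exact_mod_cast h3
    have h4' : n < b + 1 := by exact_mod_cast h4
    omega

section orbit

variable {F0 : T1 × T1 → ℂ} {lam : ℝ → T1 × T1 → ℝ} {Φ : ℝ → SF F0 → SF F0}

/-- the circle-valued map of the sheet `a = ±1` -/
def phi (hF : HF F0) (a : ℝ) (ha : a = 1 ∨ a = -1) : C(SF F0, T1) where
  toFun p := if 0 ≤ a * p.1.2.re then p.1.1.2 else 0
  continuous_toFun := by
    apply Continuous.if_le
    · exact continuous_snd.comp (continuous_fst.comp continuous_subtype_val)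
    · exact continuous_const
    · exact continuous_const
    · exact continuous_const.mul (Complex.continuous_re.comp
        (continuous_snd.comp continuous_subtype_val))
    · intro p hp
      apply re_zero hF p.2
      rcases ha with rfl | rfl
      · linarith
      · linarith

theorem phi_apply (hF : HF F0) (a : ℝ) (ha : a = 1 ∨ a = -1) (p : SF F0) :
    phi hF a ha p = if 0 ≤ a * p.1.2.re then p.1.1.2 else 0 := rfl

theorem iter_eq (hΦ : IsFlow F0 lam Φ) (q : SF F0) (j : ℕ) : (Φ 1)^[j] q = Φ j q := by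
  induction j with
  | zero => simp [hΦ.zero]
  | succ j ih =>
    rw [Function.iterate_succ_apply', ih, ← hΦ.add]
    push_cast
    rfl

/-- displacement compared with any explicit lift -/
theorem disp_eq (hΦ : IsFlow F0 lam Φ) (q : SF F0) (N : ℕ) (φ : C(SF F0, T1)) {δ : ℝ}
    (hd : IsDisp Φ φ q N δ) {G : ℝ → ℝ} (hG : ContinuousOn G (Icc 0 (N : ℝ)))
    (hG2 : ∀ s ∈ Icc (0 : ℝ) N, ((G s : ℝ) : T1) = φ (Φ s q)) : δ = G N - G 0 := by
  obtain ⟨g, hg, hg2, hg3⟩ := hd
  rcases Nat.eq_zero_or_pos N with rfl | hN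
  · simp only [Nat.cast_zero] at hg3 ⊢
    linarith
  have hval : ∀ s ∈ Icc (0 : ℝ) N, ((g s : ℝ) : T1) = φ (Φ s q) := by
    intro s hs
    have key : ∀ (j : ℕ), j < N → ∀ s' ∈ Icc (0 : ℝ) 1, s = j + s' →
        ((g s : ℝ) : T1) = φ (Φ s q) := by
      intro j hj s' hs' he
      rw [he, hg2 j hj s' hs', iter_eq hΦ, ← hΦ.add]
    rcases eq_or_lt_of_le hs.2 with h | h
    · apply key (N - 1) (by omega) 1 ⟨by norm_num, le_rfl⟩
      rw [h, Nat.cast_sub hN]
      push_cast
      ring
    · apply key ⌊s⌋₊ ((Nat.floor_lt hs.1).2 h) (s - ⌊s⌋₊)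
        ⟨by linarith [Nat.floor_le hs.1], by linarith [Nat.lt_floor_add_one s]⟩ (by ring)
  have := int_const (f := fun s => g s - G s) (Nat.cast_nonneg N) (hg.sub hG) (by
    intro s hs
    rw [AddCircle.coe_sub, hval s hs, hG2 s hs, sub_self])
  linarith

theorem phi_lift (hF : HF F0) (hΦ : IsFlow F0 lam Φ) (a : ℝ) (ha : a = 1 ∨ a = -1)
    (q : SF F0) {t0 : ℝ} (h0 : (t0 : T1) = q.1.1.2) {σ : ℕ → ℝ} (hσ : ∀ k, σ k = 1 ∨ σ k = -1)
    (hsh : ∀ (k : ℕ) (s : ℝ), (k : ℝ) < Ht lam q.1.1 t0 s → Ht lam q.1.1 t0 s < k + 1 →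
      0 < σ k * (Φ s q).1.2.re) (M : ℕ) (s : ℝ) (hs0 : 0 ≤ Ht lam q.1.1 t0 s)
    (hsM : Ht lam q.1.1 t0 s < M) :
    ((ZZ (fun k => (1 + a * σ k) / 2) M (Ht lam q.1.1 t0 s) : ℝ) : T1) =
      phi hF a ha (Φ s q) := by
  set u := Ht lam q.1.1 t0 s with hu
  have hfl := Nat.floor_le hs0
  have hfl2 := Nat.lt_floor_add_one u
  set k := ⌊u⌋₊ with hk
  have hkM : k < M := by
    have : (k : ℝ) < M := lt_of_le_of_lt hfl hsM
    exact_mod_cast this
  rw [ZZ_between _ hkM hfl hfl2.le]
  have hint : ∀ n : ℕ, (((∑ j ∈ Finset.range n, (1 + a * σ j) / 2 : ℝ)) : T1) = 0 := by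
    intro n
    have : ∃ m : ℕ, ∑ j ∈ Finset.range n, (1 + a * σ j) / 2 = (m : ℝ) := by
      induction n with
      | zero => exact ⟨0, by simp⟩
      | succ n ih =>
        obtain ⟨m, hm⟩ := ih
        rw [Finset.sum_range_succ, hm]
        rcases ha with rfl | rfl <;> rcases hσ n with h | h <;> rw [h]
        · exact ⟨m + 1, by push_cast; ring⟩
        · exact ⟨m, by ring⟩
        · exact ⟨m, by ring⟩
        · exact ⟨m + 1, by push_cast; ring⟩
    obtain ⟨m, hm⟩ := this
    rw [hm, coe_nat_T1]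
  have hcoord : (Φ s q).1.1.2 = ((u - k : ℝ) : T1) := by
    rw [base_eq hΦ q h0 k (u := u - k) (by rw [← hu]; ring)]
    unfold mv
    simp
  rw [AddCircle.coe_add, hint, zero_add, phi_apply, hcoord]
  rcases eq_or_lt_of_le hfl with h | h
  · have : u - k = 0 := by linarith
    rw [this, mul_zero]
    simp
  · have hpos := hsh k s h hfl2
    rcases ha with rfl | rfl <;> rcases hσ k with h' | h' <;> rw [h'] at hpos ⊢
    · rw [if_pos (by linarith)]
      congr 1
      ring
    · rw [if_neg (by linarith)]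
      norm_num
    · rw [if_neg (by linarith)]
      norm_num
    · rw [if_pos (by linarith)]
      congr 1
      ring

/-- one lap takes time `R` -/
theorem one_lap (hv : VVStm) (hl : IsLam lam) {z : T1 × T1} (hz : vv z ≠ 0) {t0 : ℝ}
    (h0 : (t0 : T1) = z.2) (k : ℕ) {a b : ℝ} (ha : Ht lam z t0 a = k - 1 / 2)
    (hb : Ht lam z t0 b = k + 1 / 2) (hx0 : XX z t0 k ≠ 0) (hx1 : XX z t0 k ≠ (be : T1)) :
    R (XX z t0 k) = b - a := by
  rw [← time_eq hv hl hz a b, ← lap_time _ hx0 hx1]
  unfold Ht at ha hb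
  have e1 : lam a z = -(1 / 2) + (k - t0) := by linarith
  have e2 : lam b z = 1 / 2 + (k - t0) := by linarith
  rw [e1, e2, ← intervalIntegral.integral_comp_add_right (fun u => 1 / vv (mv z u))]
  apply intervalIntegral.integral_congr
  intro u _
  simp only
  rw [← mv_height h0 k u, add_comm u]

theorem seam_free (hv : VVStm) (hl : IsLam lam) {z : T1 × T1} (hz : vv z ≠ 0) {t0 : ℝ}
    (h0 : (t0 : T1) = z.2) (k : ℕ) {s : ℝ} (hs : Ht lam z t0 s = k) :
    XX z t0 k ≠ 0 ∧ XX z t0 k ≠ (be : T1) := by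
  have h1 : mv z (lam s z) = (XX z t0 k, 0) := by
    have := mv_height h0 k 0
    rw [mv_zero] at this
    rw [← this]
    congr 1
    unfold Ht at hs
    linarith
  have h2 := lam_nonfixed hv hl hz s
  rw [h1] at h2
  have h3 := mt (hv.2.2.1 _).2 h2
  push Not at h3
  exact ⟨fun h => h3.1 (by rw [h]), fun h => h3.2 (by rw [h])⟩

theorem Ht_cont (hl : IsLam lam) (z : T1 × T1) (t0 : ℝ) : Continuous (Ht lam z t0) :=
  continuous_const.add (lam_cont hl z)

theorem Ht_mono (hv : VVStm) (hl : IsLam lam) {z : T1 × T1} (hz : vv z ≠ 0) (t0 : ℝ) :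
    StrictMono (Ht lam z t0) := fun a b hab => by
  unfold Ht
  have := lam_strictMono hv hl hz hab
  simp only at this
  linarith

/-- `m` laps take time `TT` -/
theorem laps_time (hv : VVStm) (hl : IsLam lam) {z : T1 × T1} (hz : vv z ≠ 0) {t0 : ℝ}
    (h0 : (t0 : T1) = z.2) (k m : ℕ) {a b : ℝ} (ha : Ht lam z t0 a = k - 1 / 2)
    (hb : Ht lam z t0 b = k + m - 1 / 2) : TT (XX z t0 k) m = b - a := by
  induction m generalizing b with
  | zero =>
    have : a = b := by
      apply (Ht_mono hv hl hz t0).injective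
      rw [ha, hb]
      push_cast
      ring
    rw [this]
    simp [TT]
  | succ m ih =>
    push_cast at hb
    have hm0 : (0 : ℝ) ≤ m := Nat.cast_nonneg m
    have hab : a ≤ b := by
      rw [← (Ht_mono hv hl hz t0).le_iff_le, ha, hb]
      linarith
    obtain ⟨c, hc, hc1⟩ := intermediate_value_Icc hab (Ht_cont hl z t0).continuousOn
      (show (k : ℝ) + m - 1 / 2 ∈ Icc (Ht lam z t0 a) (Ht lam z t0 b) by
        rw [ha, hb]; constructor <;> linarith)
    obtain ⟨d, hd, hd1⟩ := intermediate_value_Icc hab (Ht_cont hl z t0).continuousOn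
      (show (k : ℝ) + m ∈ Icc (Ht lam z t0 a) (Ht lam z t0 b) by
        rw [ha, hb]; constructor <;> linarith)
    have hfree := seam_free hv hl hz h0 (k + m) (s := d) (by rw [hd1]; push_cast; ring)
    have h1 := ih hc1
    have h2 := one_lap hv hl hz h0 (k + m) (a := c) (b := b) (by rw [hc1]; push_cast; ring)
      (by rw [hb]; push_cast; ring) hfree.1 hfree.2
    unfold TT at h1 ⊢
    rw [Finset.sum_range_succ, h1, XX_rot, h2]
    ring

end orbit

end

end Pool.Agent.Y267.RS
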