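import Pool.Agent.Y267.RS.T3d

set_option autoImplicit false

/-!
# Project RS, T3: the theorem
-/

namespace Pool.Agent.Y267.RS

open Set Filter Topology MeasureTheory

noncomputable section

theorem visits_succ' (A : Set T1) (x : T1) (t : ℕ) :
    visits A x (t + 1) = ind A x + visits A (rot x 1) t := by
  unfold visits
  rw [Finset.sum_range_succ', add_comm]
  congr 1
  · congr 1
    unfold rot
    simp
  · apply Finset.sum_congr rfl
    intro s _
    congr 1
    unfold rot
    rw [add_assoc, ← AddCircle.coe_add]
    congr 2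
    push_cast
    ring

theorem pm_pow (n : ℕ) : ((-1 : ℝ) ^ n = 1) ∨ ((-1 : ℝ) ^ n = -1) := neg_one_pow_eq_or ℝ n

theorem pm_mul {a b : ℝ} (ha : a = 1 ∨ a = -1) (hb : b = 1 ∨ b = -1) : a * b = 1 ∨ a * b = -1 := by
  rcases ha with rfl | rfl <;> rcases hb with rfl | rfl <;> norm_num

section orbit

variable {F0 : T1 × T1 → ℂ} {lam : ℝ → T1 × T1 → ℝ} {Φ : ℝ → SF F0 → SF F0}

/-- displacement of `phi a` for an orbit through a non-singular point -/
theorem disp_main (hF : HF F0) (hv : VVStm) (hl : IsLam lam) (hΦ : IsFlow F0 lam Φ)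
    (a : ℝ) (ha : a = 1 ∨ a = -1)
    (q : SF F0) (hq : vv q.1.1 ≠ 0) {t0 : ℝ} (h0 : (t0 : T1) = q.1.1.2) (ht0 : 0 ≤ t0)
    {σ : ℕ → ℝ} (hσ : ∀ k, σ k = 1 ∨ σ k = -1)
    (hsh : ∀ (k : ℕ) (s : ℝ), (k : ℝ) < Ht lam q.1.1 t0 s → Ht lam q.1.1 t0 s < k + 1 →
      0 < σ k * (Φ s q).1.2.re) (N : ℕ) {δ : ℝ} (hd : IsDisp Φ (phi hF a ha) q N δ)
    (p m : ℕ) :
    |δ - ∑ t ∈ Finset.range m, (1 + a * σ (p + t)) / 2| ≤
      |Ht lam q.1.1 t0 N - (p + m)| + |t0 - p| := by
  obtain ⟨M, hM⟩ := exists_nat_gt (max (Ht lam q.1.1 t0 N) (p + m))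
  have hM1 := lt_of_le_of_lt (le_max_left _ _) hM
  have hM2 := lt_of_le_of_lt (le_max_right _ _) hM
  set c : ℕ → ℝ := fun k => (1 + a * σ k) / 2 with hc
  have hc0 : ∀ k, 0 ≤ c k := by
    intro k
    rcases pm_mul ha (hσ k) with h | h <;> simp only [hc, h] <;> norm_num
  have hc1 : ∀ k, c k ≤ 1 := by
    intro k
    rcases pm_mul ha (hσ k) with h | h <;> simp only [hc, h] <;> norm_num
  have hmono := (Ht_mono hv hl hq t0).monotone
  have hH0 : Ht lam q.1.1 t0 0 = t0 := by unfold Ht; rw [hl.zero, add_zero]
  have hδ : δ = ZZ c M (Ht lam q.1.1 t0 N) - ZZ c M (Ht lam q.1.1 t0 0) := by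
    apply disp_eq hΦ q N (phi hF a ha) hd (G := fun s => ZZ c M (Ht lam q.1.1 t0 s))
    · exact ((ZZ_cont c M).comp (Ht_cont hl _ t0)).continuousOn
    · intro s hs
      apply phi_lift hF hΦ a ha q h0 hσ hsh M s
      · have := hmono hs.1
        rw [hH0] at this
        linarith
      · have := hmono hs.2
        linarith
  have hsum : ∑ t ∈ Finset.range m, (1 + a * σ (p + t)) / 2 = ZZ c M (p + m) - ZZ c M p := by
    have e1 : ZZ c M ((p : ℝ) + m) = ∑ j ∈ Finset.range (p + m), c j := by
      have h3 : p + m < M := by exact_mod_cast hM2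
      have := ZZ_between c h3 (u := (p : ℝ) + m) (by push_cast; exact le_rfl) (by push_cast; linarith)
      rw [this]
      push_cast
      ring
    have e2 : ZZ c M (p : ℝ) = ∑ j ∈ Finset.range p, c j := by
      have h3 : p < M := by
        have : (p : ℝ) < M := by
          have : (0 : ℝ) ≤ m := Nat.cast_nonneg m
          linarith
        exact_mod_cast this
      have := ZZ_between c h3 (u := (p : ℝ)) le_rfl (by linarith)
      rw [this]
      ring
    rw [e1, e2, Finset.sum_range_add, add_sub_cancel_left]
  rw [hδ, hsum, hH0]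
  have k1 := ZZ_abs hc0 hc1 M (p + m) (Ht lam q.1.1 t0 N)
  have k2 := ZZ_abs hc0 hc1 M p t0
  have : ZZ c M (Ht lam q.1.1 t0 N) - ZZ c M t0 - (ZZ c M (p + m) - ZZ c M p) =
    (ZZ c M (Ht lam q.1.1 t0 N) - ZZ c M (p + m)) - (ZZ c M t0 - ZZ c M p) := by ring
  rw [this]
  exact (abs_sub _ _).trans (add_le_add k1 k2)

theorem sum_half (a s : ℝ) (x : T1) (m : ℕ) :
    ∑ t ∈ Finset.range m, (1 + a * (s * sgn x t)) / 2 = (m + a * s * SS x m) / 2 := by
  unfold SS
  rw [← Finset.sum_div, Finset.sum_add_distrib, Finset.mul_sum]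
  congr 1
  congr 1
  · simp
  · apply Finset.sum_congr rfl
    intro t _
    ring

end orbit

theorem t3 (h6 : A6Stm) (hv : VVStm) : T3Stm := by
  intro F0 hF lam Φ hl hΦ
  have hb := h6.1
  refine ⟨phi hF 1 (Or.inl rfl), phi hF (-1) (Or.inr rfl), 3, ?_, ?_⟩
  · intro q N δ0 δ1 hd0 hd1
    by_cases hq : vv q.1.1 = 0
    · -- fixed point
      have hz : ∀ a ha, ∀ δ, IsDisp Φ (phi hF a ha) q N δ → δ = 0 := by
        intro a ha δ hd
        have := disp_eq hΦ q N (phi hF a ha) hd (G := fun _ => 0) continuousOn_const (by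
          intro s _
          rw [phi_apply, hΦ.base, lam_fixed hv hl hq, mv_zero]
          have h2 : q.1.1.2 = 0 := by
            rcases (hv.2.2.1 _).1 hq with h | h <;> rw [h]
          rw [h2]
          simp)
        simpa using this
      have e0 := hz _ _ _ hd0
      have e1 := hz _ _ _ hd1
      refine ⟨0, 0, 1, Or.inl rfl, ?_, ?_, ?_, ?_⟩
      · intro t ht
        omega
      · simp [TT]
      · rw [e0]; simp [SS]
      · rw [e1]; simp [SS]
    · obtain ⟨t0, ht0, ht1, h0⟩ := exists_rep q.1.1.2
      obtain ⟨σ, hσ, hsh⟩ := sheets hb hv hF hl hΦ q hq ht1 h0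
      set z := q.1.1 with hz
      set H := Ht lam z t0 with hH
      have hH0 : H 0 = t0 := by rw [hH]; unfold Ht; rw [hl.zero, add_zero]
      have hmono := Ht_mono hv hl hq t0
      have hN0 : (0 : ℝ) ≤ N := Nat.cast_nonneg N
      have hHN : t0 ≤ H N := by rw [← hH0]; exact hmono.monotone hN0
      set m := ⌊H N - 3 / 2⌋₊ with hm
      have hm1 : H N < m + 5 / 2 := by
        have := Nat.lt_floor_add_one (H N - 3 / 2)
        linarith
      have hm2 : 1 ≤ m → (m : ℝ) + 3 / 2 ≤ H N := by
        intro h
        have h2 : 0 ≤ H N - 3 / 2 := by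
          by_contra hc
          push Not at hc
          have := Nat.floor_of_nonpos hc.le
          omega
        have := Nat.floor_le h2
        linarith
      set s := σ * (-1) ^ ind (arc 0 be) (XX z t0 1) with hs
      have hspm : s = 1 ∨ s = -1 := pm_mul hσ (pm_pow _)
      set σ' : ℕ → ℝ := fun k => σ * (-1) ^ visits (arc 0 be) (XX z t0 1) k with hσ'
      have hσ'1 : ∀ k, σ' k = 1 ∨ σ' k = -1 := fun k => pm_mul hσ (pm_pow _)
      have hσ2 : ∀ t, σ' (1 + t) = s * sgn (XX z t0 2) t := by
        intro t
        simp only [hσ', hs, sgn]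
        rw [add_comm 1 t, visits_succ', XX_rot, pow_add]
        ring
      have hsum : ∀ a : ℝ, ∑ t ∈ Finset.range m, (1 + a * σ' (1 + t)) / 2 =
          (m + a * s * SS (XX z t0 2) m) / 2 := by
        intro a
        rw [← sum_half]
        apply Finset.sum_congr rfl
        intro t _
        rw [hσ2]
      have hbound : |H N - ((1 : ℕ) + m)| + |t0 - (1 : ℕ)| ≤ 3 := by
        have h3 : |t0 - (1 : ℕ)| ≤ 1 := by
          rw [abs_le]; push_cast; constructor <;> linarith
        have h4 : |H N - ((1 : ℕ) + m)| ≤ 2 := by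
          rw [abs_le]
          push_cast
          constructor
          · rcases Nat.eq_zero_or_pos m with h | h
            · rw [h]
              push_cast
              linarith
            · linarith [hm2 h]
          · linarith
        linarith
      have d0 := disp_main hF hv hl hΦ 1 (Or.inl rfl) q hq h0 ht0 hσ'1 hsh N hd0 1 m
      have d1 := disp_main hF hv hl hΦ (-1) (Or.inr rfl) q hq h0 ht0 hσ'1 hsh N hd1 1 m
      rw [hsum] at d0 d1
      refine ⟨XX z t0 2, m, s, hspm, ?_, ?_, ?_, ?_⟩
      · intro t ht
        rw [XX_rot]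
        have h1m : 1 ≤ m := by omega
        have htm : (t : ℝ) + 1 ≤ m := by exact_mod_cast ht
        obtain ⟨c, _, hc⟩ := intermediate_value_Icc hN0 (Ht_cont hl z t0).continuousOn
          (show (t : ℝ) + 2 ∈ Icc (Ht lam z t0 0) (Ht lam z t0 N) by
            rw [← hH, hH0]
            have := hm2 h1m
            have : (0 : ℝ) ≤ t := Nat.cast_nonneg t
            constructor <;> linarith)
        exact seam_free hv hl hq h0 (2 + t) (s := c) (by rw [hc]; push_cast; ring)
      · rcases Nat.eq_zero_or_pos m with h | h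
        · rw [h]
          simp [TT]
        · have h5 := hm2 h
          have hm0 : (0 : ℝ) ≤ m := Nat.cast_nonneg m
          obtain ⟨c, hc, hc1⟩ := intermediate_value_Icc hN0 (Ht_cont hl z t0).continuousOn
            (show (3 : ℝ) / 2 ∈ Icc (Ht lam z t0 0) (Ht lam z t0 N) by
              rw [← hH, hH0]; constructor <;> linarith)
          obtain ⟨d, hd, hd1⟩ := intermediate_value_Icc hN0 (Ht_cont hl z t0).continuousOn
            (show (m : ℝ) + 3 / 2 ∈ Icc (Ht lam z t0 0) (Ht lam z t0 N) by
              rw [← hH, hH0]; constructor <;> linarith)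
          rw [laps_time hv hl hq h0 2 m (a := c) (b := d) (by rw [hc1]; push_cast; ring)
            (by rw [hd1]; push_cast; ring)]
          linarith [hc.1, hd.2]
      · rw [one_mul] at d0
        exact d0.trans hbound
      · have e : (m : ℝ) + -1 * s * SS (XX z t0 2) m = m - s * SS (XX z t0 2) m := by ring
        rw [e] at d1
        exact d1.trans hbound
  · intro x m s hs hfree
    set t0 : ℝ := 1 / 2 with ht0
    set z : T1 × T1 := (x - ((al / 2 : ℝ) : T1), ((1 / 2 : ℝ) : T1)) with hz
    set w : ℂ := ((s * √((F0 z).re) : ℝ) : ℂ) with hw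
    have him : (F0 z).im = 0 := hF.top_im _
    have hre : 0 < (F0 z).re := hF.top_re _
    have hsq0 : 0 < √((F0 z).re) := Real.sqrt_pos.2 hre
    have hs2 : s ^ 2 = 1 := by rcases hs with rfl | rfl <;> norm_num
    have hmem : (z, w) ∈ SF F0 := by
      show w ^ 2 = F0 z
      rw [hw, ← Complex.ofReal_pow, mul_pow, hs2, Real.sq_sqrt hre.le, one_mul]
      apply Complex.ext
      · simp
      · simp [him]
    set q : SF F0 := ⟨(z, w), hmem⟩ with hqd
    have hqz : q.1.1 = z := rfl
    have hhalf : ((1 / 2 : ℝ) : T1) ≠ 0 := by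
      intro h
      rw [AddCircle.coe_eq_zero_iff] at h
      obtain ⟨n, hn⟩ := h
      rw [zsmul_eq_mul, mul_one] at hn
      have a1 : (0 : ℝ) < n := by rw [hn]; norm_num
      have a2 : (n : ℝ) < 1 := by rw [hn]; norm_num
      have b1 : 0 < n := by exact_mod_cast a1
      have b2 : n < 1 := by exact_mod_cast a2
      omega
    have hq : vv z ≠ 0 := by
      intro h
      rcases (hv.2.2.1 z).1 h with h | h
      · exact hhalf (congrArg Prod.snd h)
      · exact hhalf (congrArg Prod.snd h)
    have h0 : (t0 : T1) = z.2 := rfl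
    have hX1 : XX z t0 1 = x := by
      unfold XX
      rw [hz, ht0]
      simp only
      rw [sub_add, ← AddCircle.coe_sub]
      have : al / 2 - al * (((1 : ℕ) : ℝ) - 1 / 2) = 0 := by push_cast; ring
      rw [this, AddCircle.coe_zero, sub_zero]
    have hmono := Ht_mono hv hl hq t0
    have hH0 : Ht lam z t0 0 = t0 := by unfold Ht; rw [hl.zero, add_zero]
    -- reaching height k + 1/2
    have hreach : ∀ k : ℕ, k ≤ m → ∃ b : ℝ, Ht lam z t0 b = k + 1 / 2 := by
      intro k
      induction k with
      | zero => exact fun _ => ⟨0, by rw [hH0]; simp [ht0]⟩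
      | succ k ih =>
        intro hk
        obtain ⟨b, hb⟩ := ih (by omega)
        have hX : XX z t0 (k + 1) = rot x k := by
          rw [← hX1, XX_rot, add_comm]
        have hne := hfree k (by omega)
        rw [← hX] at hne
        by_contra hc
        push Not at hc
        have hlt : ∀ s' : ℝ, Ht lam z t0 s' < ((k + 1 : ℕ) : ℝ) + 1 / 2 := by
          intro s'
          by_contra h
          push Not at h
          rcases le_total b s' with hbs | hbs
          · obtain ⟨c, _, hc'⟩ := intermediate_value_Icc hbs (Ht_cont hl z t0).continuousOn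
              (show ((k + 1 : ℕ) : ℝ) + 1 / 2 ∈ Icc (Ht lam z t0 b) (Ht lam z t0 s') by
                rw [hb]; push_cast at h ⊢; constructor <;> linarith)
            exact hc c hc'
          · have := hmono.monotone hbs
            rw [hb] at this
            push_cast at h
            linarith
        -- the whole lap
        have hint : IntervalIntegrable (fun u => 1 / vv (mv (XX z t0 (k + 1), 0) u)) volume
            (-(1 / 2)) (1 / 2) := by
          apply ContinuousOn.intervalIntegrable
          apply ContinuousOn.div continuousOn_const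
          · exact (hv.1.comp (continuous_mv _)).continuousOn
          · intro u hu
            rw [uIcc_of_le (by norm_num)] at hu
            intro hvz
            rcases (hv.2.2.1 _).1 hvz with h | h
            · have h2 : (u : T1) = 0 := by
                have := congrArg Prod.snd h
                unfold mv at this
                simpa using this
              have h3 := norm_coe_of_abs_le (u := u) (abs_le.2 ⟨by linarith [hu.1], by linarith [hu.2]⟩)
              rw [h2, norm_zero] at h3
              have h4 : u = 0 := abs_eq_zero.1 h3.symm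
              rw [h4, mv_zero] at h
              exact hne.1 (congrArg Prod.fst h)
            · have h2 : (u : T1) = 0 := by
                have := congrArg Prod.snd h
                unfold mv at this
                simpa using this
              have h3 := norm_coe_of_abs_le (u := u) (abs_le.2 ⟨by linarith [hu.1], by linarith [hu.2]⟩)
              rw [h2, norm_zero] at h3
              have h4 : u = 0 := abs_eq_zero.1 h3.symm
              rw [h4, mv_zero] at h
              exact hne.2 (congrArg Prod.fst h)
        have hbd : ∀ s' : ℝ, b ≤ s' → s' - b ≤ R (XX z t0 (k + 1)) := by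
          intro s' hbs
          rw [← time_eq hv hl hq b s', ← lap_time _ hne.1 hne.2]
          set u0 : ℝ := Ht lam z t0 s' - ((k + 1 : ℕ) : ℝ) with hu0
          have e1 : lam b z = -(1 / 2) + (((k + 1 : ℕ) : ℝ) - t0) := by
            unfold Ht at hb
            push_cast
            linarith
          have e2 : lam s' z = u0 + (((k + 1 : ℕ) : ℝ) - t0) := by
            rw [hu0]
            unfold Ht
            ring
          have hu1 : -(1 / 2) ≤ u0 := by
            have := hmono.monotone hbs
            rw [hb] at this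
            rw [hu0]
            push_cast
            linarith
          have hu2 : u0 ≤ 1 / 2 := by
            have := hlt s'
            rw [hu0]
            linarith
          rw [e1, e2, ← intervalIntegral.integral_comp_add_right (fun u => 1 / vv (mv z u))]
          have e3 : ∫ u in (-(1 / 2) : ℝ)..u0, 1 / vv (mv z (u + (((k + 1 : ℕ) : ℝ) - t0))) =
              ∫ u in (-(1 / 2) : ℝ)..u0, 1 / vv (mv (XX z t0 (k + 1), 0) u) := by
            apply intervalIntegral.integral_congr
            intro u _
            simp only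
            rw [← mv_height h0 (k + 1) u, add_comm u]
          rw [e3]
          have hi1 := hint.mono_set (c := -(1 / 2)) (d := u0) (by
            rw [uIcc_of_le hu1, uIcc_of_le (by norm_num)]
            exact Icc_subset_Icc_right hu2)
          have hi2 := hint.mono_set (c := u0) (d := 1 / 2) (by
            rw [uIcc_of_le hu2, uIcc_of_le (by norm_num)]
            exact Icc_subset_Icc_left hu1)
          rw [← intervalIntegral.integral_add_adjacent_intervals hi1 hi2]
          have : 0 ≤ ∫ u in u0..(1 / 2), 1 / vv (mv (XX z t0 (k + 1), 0) u) := by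
            apply intervalIntegral.integral_nonneg hu2
            intro u _
            have := (hv.2.1 (mv (XX z t0 (k + 1), 0) u)).1
            positivity
          linarith
        have hR : 0 ≤ R (XX z t0 (k + 1)) := by
          have := hbd b le_rfl
          linarith
        have := hbd (b + R (XX z t0 (k + 1)) + 1) (by linarith)
        linarith
    obtain ⟨b, hb⟩ := hreach m le_rfl
    have hT : TT x m = b := by
      have := laps_time hv hl hq h0 1 m (a := 0) (b := b) (by rw [hH0, ht0]; norm_num)
        (by rw [hb]; push_cast; ring)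
      rw [hX1] at this
      rw [this, sub_zero]
    have hb0 : 0 ≤ b := by
      rw [← hmono.le_iff_le, hH0, hb, ht0]
      have : (0 : ℝ) ≤ m := Nat.cast_nonneg m
      linarith
    refine ⟨q, ⌈b⌉₊, ?_, ?_, ?_⟩
    · rw [hT]; exact Nat.le_ceil b
    · rw [hT]
      have := Nat.ceil_lt_add_one hb0
      linarith
    · intro δ0 δ1 hd0 hd1
      obtain ⟨σ, hσ, hsh⟩ := sheets h6.1 hv hF hl hΦ q hq (t0 := t0) (by rw [ht0]; norm_num) h0
      have hσs : σ = s := by
        have h1 := hsh 0 0 (by rw [hqz, hH0, ht0]; norm_num) (by rw [hqz, hH0, ht0]; norm_num)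
        have h2 : visits (arc 0 be) (XX q.1.1 t0 1) 0 = 0 := by simp [visits]
        rw [h2, pow_zero, mul_one, hΦ.zero] at h1
        have h3 : q.1.2.re = s * √((F0 z).re) := by rw [hqd]; exact Complex.ofReal_re _
        rw [h3] at h1
        rcases hσ with h | h <;> rcases hs with h' | h' <;> rw [h, h'] at h1 ⊢
        · exfalso; linarith
        · exfalso; linarith
      set σ' : ℕ → ℝ := fun k => σ * (-1) ^ visits (arc 0 be) (XX q.1.1 t0 1) k with hσ'
      have hσ'1 : ∀ k, σ' k = 1 ∨ σ' k = -1 := fun k => pm_mul hσ (pm_pow _)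
      have hsum : ∀ a : ℝ, ∑ t ∈ Finset.range m, (1 + a * σ' (0 + t)) / 2 =
          (m + a * s * SS x m) / 2 := by
        intro a
        rw [← sum_half]
        apply Finset.sum_congr rfl
        intro t _
        simp only [hσ', zero_add, hqz, hX1, hσs, sgn]
      have hbN : b ≤ (⌈b⌉₊ : ℝ) := Nat.le_ceil b
      have hNb : (⌈b⌉₊ : ℝ) < b + 1 := Nat.ceil_lt_add_one hb0
      have hbound : |Ht lam q.1.1 t0 (⌈b⌉₊ : ℝ) - ((0 : ℕ) + m)| + |t0 - (0 : ℕ)| ≤ 3 := by
        rw [hqz]
        have h3 : |t0 - (0 : ℕ)| ≤ 1 / 2 := by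
          rw [ht0, abs_le]; push_cast; constructor <;> norm_num
        have h5 : Ht lam z t0 (⌈b⌉₊ : ℝ) - Ht lam z t0 b ≤ 1 := by
          have := lam_le hv hl z hbN
          unfold Ht
          linarith
        have h6' := hmono.monotone hbN
        have h4 : |Ht lam z t0 (⌈b⌉₊ : ℝ) - ((0 : ℕ) + m)| ≤ 3 / 2 := by
          rw [hb] at h5 h6'
          rw [abs_le]
          push_cast
          constructor <;> linarith
        exact (add_le_add h4 h3).trans (by norm_num)
      have d0 := disp_main hF hv hl hΦ 1 (Or.inl rfl) q hq h0 (by rw [ht0]; norm_num) hσ'1 hsh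
        ⌈b⌉₊ hd0 0 m
      have d1 := disp_main hF hv hl hΦ (-1) (Or.inr rfl) q hq h0 (by rw [ht0]; norm_num) hσ'1 hsh
        ⌈b⌉₊ hd1 0 m
      rw [hsum] at d0 d1
      constructor
      · rw [one_mul] at d0
        exact d0.trans hbound
      · have e : (m : ℝ) + -1 * s * SS x m = m - s * SS x m := by ring
        rw [e] at d1
        exact d1.trans hbound

end

end Pool.Agent.Y267.RS
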